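import Mathlib

/-!
# Macdonald's theorem, combinatorial core

`true` is the letter `x`, `false` is the letter `y`.  In a ring `R` let `W i j` (to be thought of as
`z ↦ x^i z y^j + y^j z x^i`), `u` and `v` (`z ↦ x z x`, `z ↦ y z y`) satisfy the identities of `MacData`.
`G W i j p q` is to be thought of as `z ↦ x^i p z (y^j q)^* + y^j q z (x^i p)^*`.
-/

set_option autoImplicit false

namespace Pool.Agent.H78.Mac

variable {R : Type*} [Ring R]

/-- The identities for the operators `W i j = U_(x^i, y^j)`, `u = U_x`, `v = U_y`. -/
structure MacData (W : ℕ → ℕ → R) (u v : R) : Prop where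
  zero : W 0 0 = 2
  ux : W 1 0 * u = u * W 1 0
  vy : W 0 1 * v = v * W 0 1
  lx : ∀ k j, W 1 0 * W (k + 1) j = W (k + 2) j + u * W k j
  ly : ∀ i k, W 0 1 * W i (k + 1) = W i (k + 2) + v * W i k
  rx : ∀ k j, W k j * u = W (k + 1) j * W 1 0 - W (k + 2) j
  ry : ∀ i k, W i k * v = W i (k + 1) * W 0 1 - W i (k + 2)

/-- The operator of the pair `x^i p`, `y^j q`. -/
def G (W : ℕ → ℕ → R) : ℕ → ℕ → List Bool → List Bool → R
  | i, j, true :: p, q => G W (i + 1) j p q
  | i, j, [], false :: q => G W i (j + 1) [] q
  | i, j, false :: p, false :: q => G W i (j + 1) (false :: p) q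
  | i, j, false :: p, true :: q => W i j * G W 1 1 q p - G W (i + 1) (j + 1) q p
  | i, j, false :: p, [] => W i j * G W 0 1 [] p - G W i (j + 1) [] p
  | i, j, [], true :: q => W i j * G W 1 0 q [] - G W (i + 1) j q []
  | i, j, [], [] => W i j
  termination_by _ _ p q => p.length + q.length

section basic

variable (W : ℕ → ℕ → R) (i j : ℕ) (p q : List Bool)

theorem G_x : G W i j (true :: p) q = G W (i + 1) j p q := by
  rw [G]

theorem G_y : G W i j p (false :: q) = G W i (j + 1) p q := by
  induction p generalizing i with
  | nil => rw [G]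
  | cons a p ih =>
    cases a
    · rw [G]
    · rw [G_x, G_x, ih]

theorem G_yx : G W i j (false :: p) (true :: q) =
    W i j * G W 1 1 q p - G W (i + 1) (j + 1) q p := by
  rw [G]

theorem G_yn : G W i j (false :: p) [] = W i j * G W 0 1 [] p - G W i (j + 1) [] p := by
  rw [G]

theorem G_nx : G W i j [] (true :: q) = W i j * G W 1 0 q [] - G W (i + 1) j q [] := by
  rw [G]

theorem G_nn : G W i j [] [] = W i j := by
  rw [G]

end basic

/-- The operator of the pair `p`, `q`. -/
def M (W : ℕ → ℕ → R) (p q : List Bool) : R := G W 0 0 p q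

section basic

variable (W : ℕ → ℕ → R) (i j : ℕ) (p q : List Bool)

theorem M_x : M W (true :: p) q = G W 1 0 p q := G_x W 0 0 p q

theorem M_y : M W p (false :: q) = G W 0 1 p q := G_y W 0 0 p q

/-- `p` does not start with the letter `a`. -/
def NS (a : Bool) (p : List Bool) : Prop := ∀ r, p ≠ a :: r

theorem NS_nil (a : Bool) : NS a [] := fun r h => by simp at h

theorem NS_cons {a b : Bool} (h : b ≠ a) (p : List Bool) : NS a (b :: p) := by
  intro r hr
  exact h (List.cons.inj hr).1

/-- The defining relation for good pairs. -/
theorem G_good (hW : W 0 0 = 2) (hp : NS true p) (hq : NS false q) :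
    G W i j p q = W i j * M W q p - G W i j q p := by
  match p, q with
  | true :: p, _ => exact absurd rfl (hp p)
  | _, false :: q => exact absurd rfl (hq q)
  | false :: p, true :: q =>
    rw [G_yx, M, G_x, G_y, G_x, G_y]
  | false :: p, [] =>
    rw [G_yn, M, G_y, G_y]
  | [], true :: q =>
    rw [G_nx, M, G_x, G_x]
  | [], [] =>
    rw [M, G_nn, G_nn, hW]
    noncomm_ring

end basic

section rules

variable {W : ℕ → ℕ → R} {u v : R}

theorem G_stepx (h : MacData W u v) (i j : ℕ) (p q : List Bool) :
    W 1 0 * G W (i + 1) j p q = G W (i + 2) j p q + u * G W i j p q := by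
  induction hn : p.length + q.length using Nat.strong_induction_on generalizing i j p q with
  | _ n ih =>
    subst hn
    match p, q with
    | true :: p, q =>
      rw [G_x, G_x, G_x]
      exact ih (p.length + q.length) (by simp only [List.length_cons]; omega) (i + 1) j p q rfl
    | p, false :: q =>
      rw [G_y, G_y, G_y]
      exact ih (p.length + q.length) (by simp) i (j + 1) p q rfl
    | false :: p, true :: q =>
      have h1 := ih (q.length + p.length) (by simp only [List.length_cons]; omega) (i + 1) (j + 1) q p rfl
      rw [G_yx, G_yx, G_yx, mul_sub, ← mul_assoc, h.lx, h1]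
      noncomm_ring
    | false :: p, [] =>
      have h1 := ih (([] : List Bool).length + p.length) (by simp) i (j + 1) [] p rfl
      rw [G_yn, G_yn, G_yn, mul_sub, ← mul_assoc, h.lx, h1]
      noncomm_ring
    | [], true :: q =>
      have h1 := ih (q.length + ([] : List Bool).length) (by simp) (i + 1) j q [] rfl
      rw [G_nx, G_nx, G_nx, mul_sub, ← mul_assoc, h.lx, h1]
      noncomm_ring
    | [], [] =>
      rw [G_nn, G_nn, G_nn, h.lx]

theorem G_stepy (h : MacData W u v) (i j : ℕ) (p q : List Bool) :
    W 0 1 * G W i (j + 1) p q = G W i (j + 2) p q + v * G W i j p q := by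
  induction hn : p.length + q.length using Nat.strong_induction_on generalizing i j p q with
  | _ n ih =>
    subst hn
    match p, q with
    | true :: p, q =>
      rw [G_x, G_x, G_x]
      exact ih (p.length + q.length) (by simp only [List.length_cons]; omega) (i + 1) j p q rfl
    | p, false :: q =>
      rw [G_y, G_y, G_y]
      exact ih (p.length + q.length) (by simp) i (j + 1) p q rfl
    | false :: p, true :: q =>
      have h1 := ih (q.length + p.length) (by simp only [List.length_cons]; omega) (i + 1) (j + 1) q p rfl
      rw [G_yx, G_yx, G_yx, mul_sub, ← mul_assoc, h.ly, h1]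
      noncomm_ring
    | false :: p, [] =>
      have h1 := ih (([] : List Bool).length + p.length) (by simp) i (j + 1) [] p rfl
      rw [G_yn, G_yn, G_yn, mul_sub, ← mul_assoc, h.ly, h1]
      noncomm_ring
    | [], true :: q =>
      have h1 := ih (q.length + ([] : List Bool).length) (by simp) (i + 1) j q [] rfl
      rw [G_nx, G_nx, G_nx, mul_sub, ← mul_assoc, h.ly, h1]
      noncomm_ring
    | [], [] =>
      rw [G_nn, G_nn, G_nn, h.ly]

/-- Symmetry for pairs which do not start with the same letter. -/
theorem M_symm_good (hW : W 0 0 = 2) {p q : List Bool} (hp : NS true p) (hq : NS false q) :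
    M W p q = M W q p := by
  have h1 := G_good W 0 0 p q hW hp hq
  have h2 : M W p q = 2 * M W q p - M W q p := by
    rw [hW] at h1
    exact h1
  rw [h2]
  noncomm_ring

/-- The rule for `W i j` for the pair `p`, `q`. -/
def Rule (W : ℕ → ℕ → R) (p q : List Bool) : Prop :=
  ∀ i j, W i j * M W p q = G W i j p q + G W i j q p

theorem rule_good (hW : W 0 0 = 2) {p q : List Bool} (hp : NS true p) (hq : NS false q) :
    Rule W p q := by
  intro i j
  have h1 := G_good W i j p q hW hp hq
  rw [M_symm_good hW hp hq, h1]
  abel

theorem Rule_symm {p q : List Bool} (h : Rule W p q) (hs : M W p q = M W q p) : Rule W q p := by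
  intro i j
  rw [← hs, h i j, add_comm]

theorem exists_rep (a : Bool) (p : List Bool) :
    ∃ k r, NS a r ∧ p = List.replicate k a ++ r := by
  induction p with
  | nil => exact ⟨0, [], NS_nil a, rfl⟩
  | cons b p ih =>
    by_cases hb : b = a
    · obtain ⟨k, r, h1, h2⟩ := ih
      exact ⟨k + 1, r, h1, by rw [hb, h2]; rfl⟩
    · exact ⟨0, b :: p, NS_cons hb p, rfl⟩

theorem G_repx (W : ℕ → ℕ → R) (i j k : ℕ) (p q : List Bool) :
    G W i j (List.replicate k true ++ p) q = G W (i + k) j p q := by
  induction k generalizing i with
  | zero => rfl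
  | succ k ih =>
    rw [List.replicate_succ, List.cons_append, G_x, ih]
    congr 1
    omega

theorem G_repy (W : ℕ → ℕ → R) (i j k : ℕ) (p q : List Bool) :
    G W i j p (List.replicate k false ++ q) = G W i (j + k) p q := by
  induction k generalizing j with
  | zero => rfl
  | succ k ih =>
    rw [List.replicate_succ, List.cons_append, G_y, ih]
    congr 1
    omega

theorem Ux_good (h : MacData W u v) {q : List Bool} (hq : NS true q) (p : List Bool) :
    M W (true :: q) (true :: p) = u * M W p q := by
  have h1 := G_good W 1 0 q (true :: p) h.zero hq (NS_cons (by decide) p)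
  have h2 := G_stepx h 0 0 p q
  rw [M_x, h1, M_x, G_x, h2, M]
  noncomm_ring

theorem Uy_good (h : MacData W u v) {p : List Bool} (hp : NS false p) (q : List Bool) :
    M W (false :: q) (false :: p) = v * M W p q := by
  have h1 := G_good W 0 1 (false :: q) p h.zero (NS_cons (by decide) q) hp
  have h2 := G_stepy h 0 0 p q
  rw [M_y, h1, M_y, G_y, h2, M]
  noncomm_ring

/-- Two sequences with the same recursion. -/
theorem rec_eq {t u : R} (htu : t * u = u * t) {T Z : ℕ → R}
    (hT : ∀ k, t * T (k + 1) = T (k + 2) + u * T k) (hZ : ∀ k, t * Z (k + 1) = Z (k + 2) + u * Z k)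
    (h1 : T 1 = u * Z 0) (h2 : t * Z 0 = Z 1 + T 0) (k : ℕ) : T (k + 1) = u * Z k := by
  have key : ∀ k, T (k + 1) = u * Z k ∧ T (k + 2) = u * Z (k + 1) := by
    intro k
    induction k with
    | zero =>
      refine ⟨h1, ?_⟩
      have h3 := hT 0
      rw [h1, ← mul_assoc, htu, mul_assoc, h2] at h3
      have h4 : T (0 + 2) = u * (Z 1 + T 0) - u * T 0 := by
        rw [h3]
        abel
      rw [h4, mul_add]
      abel
    | succ k ih =>
      refine ⟨ih.2, ?_⟩
      have h3 := hT (k + 1)
      rw [ih.2, ih.1, ← mul_assoc, htu, mul_assoc, hZ k] at h3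
      have h4 : T (k + 1 + 2) = u * (Z (k + 2) + u * Z k) - u * (u * Z k) := by
        rw [h3]
        abel
      rw [h4, mul_add]
      abel
  exact (key k).1

theorem Ux_rule (h : MacData W u v) {n : ℕ}
    (hs : ∀ p q : List Bool, p.length + q.length ≤ n → M W p q = M W q p)
    (hr : ∀ p q : List Bool, p.length + q.length ≤ n → Rule W p q) (p q : List Bool)
    (hn : p.length + q.length ≤ n) : M W (true :: q) (true :: p) = u * M W q p := by
  obtain ⟨k, r, hrr, rfl⟩ := exists_rep true q
  have hlen : p.length + r.length ≤ n := by
    simp only [List.length_append, List.length_replicate] at hn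
    omega
  have key := rec_eq h.ux (T := fun k => G W k 0 r (true :: p)) (Z := fun k => G W k 0 r p)
    (fun k => G_stepx h k 0 r (true :: p)) (fun k => G_stepx h k 0 r p) ?_ ?_ k
  · have e1 : M W (true :: (List.replicate k true ++ r)) (true :: p) =
        G W (k + 1) 0 r (true :: p) := by
      rw [M_x, G_repx]
      congr 1
      omega
    have e2 : M W (List.replicate k true ++ r) p = G W k 0 r p := by
      rw [M, G_repx, Nat.zero_add]
    rw [e1, e2]
    exact key
  · have e1 := Ux_good h hrr p
    rw [M_x, hs p r hlen] at e1
    exact e1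
  · have e1 := hr r p (by omega) 1 0
    have e2 : M W r (true :: p) = M W (true :: p) r :=
      M_symm_good h.zero hrr (NS_cons (by decide) p)
    rw [M_x] at e2
    show W 1 0 * G W 0 0 r p = G W 1 0 r p + G W 0 0 r (true :: p)
    have e3 : G W 0 0 r (true :: p) = M W r (true :: p) := rfl
    rw [e3, e2]
    exact e1

theorem Uy_rule (h : MacData W u v) {n : ℕ}
    (hs : ∀ p q : List Bool, p.length + q.length ≤ n → M W p q = M W q p)
    (hr : ∀ p q : List Bool, p.length + q.length ≤ n → Rule W p q) (p q : List Bool)
    (hn : p.length + q.length ≤ n) : M W (false :: q) (false :: p) = v * M W q p := by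
  obtain ⟨k, r, hrr, rfl⟩ := exists_rep false p
  have hlen : r.length + q.length ≤ n := by
    simp only [List.length_append, List.length_replicate] at hn
    omega
  have key := rec_eq h.vy (T := fun k => G W 0 k (false :: q) r) (Z := fun k => G W 0 k q r)
    (fun k => G_stepy h 0 k (false :: q) r) (fun k => G_stepy h 0 k q r) ?_ ?_ k
  · have e1 : M W (false :: q) (false :: (List.replicate k false ++ r)) =
        G W 0 (k + 1) (false :: q) r := by
      rw [M_y, G_repy]
      congr 1
      omega
    have e2 : M W q (List.replicate k false ++ r) = G W 0 k q r := by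
      rw [M, G_repy, Nat.zero_add]
    rw [e1, e2]
    exact key
  · have e1 := Uy_good h hrr q
    rw [M_y, hs r q hlen] at e1
    exact e1
  · have e1 := hr q r (by omega) 0 1
    have e2 : M W (false :: q) r = M W r (false :: q) :=
      M_symm_good h.zero (NS_cons (by decide) q) hrr
    rw [M_y] at e2
    show W 0 1 * G W 0 0 q r = G W 0 1 q r + G W 0 0 (false :: q) r
    have e3 : G W 0 0 (false :: q) r = M W (false :: q) r := rfl
    rw [e3, e2]
    exact e1

/-- Symmetry and the rule for `W i j`, for all pairs. -/
theorem symm_rule (h : MacData W u v) (n : ℕ) : ∀ p q : List Bool, p.length + q.length ≤ n →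
    M W p q = M W q p ∧ Rule W p q := by
  induction n with
  | zero =>
    intro p q hpq
    have hp : p = [] := by
      rw [← List.length_eq_zero_iff]
      omega
    have hq : q = [] := by
      rw [← List.length_eq_zero_iff]
      omega
    subst hp hq
    exact ⟨rfl, rule_good h.zero (NS_nil _) (NS_nil _)⟩
  | succ n ih =>
    intro p q hpq
    have hs : ∀ p q : List Bool, p.length + q.length ≤ n → M W p q = M W q p :=
      fun p q h => (ih p q h).1
    have hr : ∀ p q : List Bool, p.length + q.length ≤ n → Rule W p q :=
      fun p q h => (ih p q h).2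
    have good : ∀ p q : List Bool, NS true p → NS false q →
        (M W p q = M W q p ∧ Rule W p q) ∧ (M W q p = M W p q ∧ Rule W q p) := by
      intro p q hp hq
      have e1 := M_symm_good h.zero hp hq
      have e2 := rule_good h.zero hp hq
      exact ⟨⟨e1, e2⟩, e1.symm, Rule_symm e2 e1⟩
    match p, q with
    | [], [] => exact (good [] [] (NS_nil _) (NS_nil _)).1
    | [], true :: q => exact (good [] (true :: q) (NS_nil _) (NS_cons (by decide) q)).1
    | [], false :: q => exact (good (false :: q) [] (NS_cons (by decide) q) (NS_nil _)).2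
    | true :: p, [] => exact (good [] (true :: p) (NS_nil _) (NS_cons (by decide) p)).2
    | false :: p, [] => exact (good (false :: p) [] (NS_cons (by decide) p) (NS_nil _)).1
    | true :: p, false :: q =>
      exact (good (false :: q) (true :: p) (NS_cons (by decide) q) (NS_cons (by decide) p)).2
    | false :: p, true :: q =>
      exact (good (false :: p) (true :: q) (NS_cons (by decide) p) (NS_cons (by decide) q)).1
    | true :: p, true :: q =>
      simp only [List.length_cons] at hpq
      have e1 : M W (true :: p) (true :: q) = u * M W p q := Ux_rule h hs hr q p (by omega)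
      have e2 : M W (true :: q) (true :: p) = u * M W q p := Ux_rule h hs hr p q (by omega)
      refine ⟨by rw [e1, e2, hs p q (by omega)], ?_⟩
      intro i j
      have f0 := hr p q (by omega) 1 0
      have f1 := hr (true :: p) q (by simp only [List.length_cons]; omega) (i + 1) j
      have f2 := hr (true :: q) p (by simp only [List.length_cons]; omega) (i + 1) j
      have f3 := hr p q (by omega) (i + 2) j
      rw [M_x, G_x] at f1 f2
      rw [e1, G_x, G_x, ← mul_assoc, h.rx, sub_mul, mul_assoc, f0, mul_add, f1, f2, f3]
      abel
    | false :: p, false :: q =>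
      simp only [List.length_cons] at hpq
      have e1 : M W (false :: p) (false :: q) = v * M W p q := Uy_rule h hs hr q p (by omega)
      have e2 : M W (false :: q) (false :: p) = v * M W q p := Uy_rule h hs hr p q (by omega)
      refine ⟨by rw [e1, e2, hs p q (by omega)], ?_⟩
      intro i j
      have f0 := hr p q (by omega) 0 1
      have f1 := hr p (false :: q) (by simp only [List.length_cons]; omega) i (j + 1)
      have f2 := hr q (false :: p) (by simp only [List.length_cons]; omega) i (j + 1)
      have f3 := hr p q (by omega) i (j + 2)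
      rw [M_y, G_y] at f1 f2
      rw [e1, G_y, G_y, ← mul_assoc, h.ry, sub_mul, mul_assoc, f0, mul_add, f1, f2, f3]
      abel

end rules

section main

variable {W : ℕ → ℕ → R} {u v : R} (h : MacData W u v)

include h

theorem M_nil_nil : M W [] [] = 2 := by
  rw [M, G_nn, h.zero]

theorem M_symm (p q : List Bool) : M W p q = M W q p :=
  (symm_rule h _ p q le_rfl).1

theorem M_rule (p q : List Bool) : Rule W p q :=
  (symm_rule h _ p q le_rfl).2

theorem U_x (p q : List Bool) : u * M W p q = M W (true :: p) (true :: q) :=
  (Ux_rule h (n := q.length + p.length) (fun p q _ => M_symm h p q) (fun p q _ => M_rule h p q)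
    q p le_rfl).symm

theorem U_y (p q : List Bool) : v * M W p q = M W (false :: p) (false :: q) :=
  (Uy_rule h (n := q.length + p.length) (fun p q _ => M_symm h p q) (fun p q _ => M_rule h p q)
    q p le_rfl).symm

theorem V_x (p q : List Bool) : W 1 0 * M W p q = M W (true :: p) q + M W p (true :: q) := by
  rw [M_rule h p q 1 0, M_x, M_symm h p, M_x]

theorem V_y (p q : List Bool) : W 0 1 * M W p q = M W (false :: p) q + M W p (false :: q) := by
  rw [M_rule h p q 0 1, M_y, M_symm h (false :: p), M_y, add_comm]

theorem W_xy (p q : List Bool) :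
    W 1 1 * M W p q = M W (true :: p) (false :: q) + M W (false :: p) (true :: q) := by
  rw [M_rule h p q 1 1, M_x, G_y, M_symm h (false :: p), M_x, G_y]

end main

end Pool.Agent.H78.Mac
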