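import Pool.Agent.H78.Mac.Hull
import Pool.Agent.H8.JD.SSysDef

/-!
# The Shirshov-Cohn theorem: Jordan algebras generated by two elements are special.
Also the S-system of two elements of a Jordan algebra.
-/

set_option autoImplicit false

namespace Pool.Agent.H78.Mac

universe u v

/-- The free algebra. -/
abbrev FB (F : Type u) [Field F] : Type u := MonoidAlgebra F (FreeMonoid Bool)

/-- Its basis. -/
noncomputable def bF (F : Type u) [Field F] : Module.Basis (List Bool) F (FB F) :=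
  MonoidAlgebra.basis (FreeMonoid Bool) F

theorem bF_mul (F : Type u) [Field F] (v w : List Bool) : bF F (v ++ w) = bF F v * bF F w := by
  change MonoidAlgebra.single (FreeMonoid.ofList (v ++ w)) (1 : F) =
      MonoidAlgebra.single (FreeMonoid.ofList v) (1 : F) *
        MonoidAlgebra.single (FreeMonoid.ofList w) (1 : F)
  rw [MonoidAlgebra.single_mul_single, mul_one]
  rfl

theorem bF_nil (F : Type u) [Field F] : bF F [] = 1 := rfl

section special

variable {F : Type u} [Field F] {J : Type v} [NonUnitalNonAssocCommRing J] [Module F J]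
  [IsScalarTower F J J] [SMulCommClass F J J] (x y : J)

variable (F) in
/-- The homomorphism to the hull. -/
noncomputable def rr : FB F →ₗ[F] Hull F J :=
  rho (bF F) Hull.e (Hull.inr F J x) (Hull.inr F J y)

variable (F) in
/-- The pairs `(h, j)`, `h` symmetric and `ρ h = j`. -/
noncomputable def ZZ : Submodule F (FB F × J) where
  carrier := {z | st (bF F) z.1 = z.1 ∧ rr F x y z.1 = Hull.inr F J z.2}
  zero_mem' := by
    refine ⟨?_, ?_⟩
    · show st (bF F) 0 = 0
      rw [map_zero]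
    · show rr F x y 0 = Hull.inr F J 0
      rw [map_zero, map_zero]
  add_mem' := by
    rintro z w ⟨h1, h3⟩ ⟨h4, h5⟩
    refine ⟨?_, ?_⟩
    · show st (bF F) (z.1 + w.1) = z.1 + w.1
      rw [map_add, h1, h4]
    · show rr F x y (z.1 + w.1) = Hull.inr F J (z.2 + w.2)
      rw [map_add, map_add, h3, h5]
  smul_mem' := by
    rintro r z ⟨h1, h3⟩
    refine ⟨?_, ?_⟩
    · show st (bF F) (r • z.1) = r • z.1
      rw [map_smul, h1]
    · show rr F x y (r • z.1) = Hull.inr F J (r • z.2)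
      rw [map_smul, map_smul, h3]

theorem rr_mul (h2 : (2 : F) ≠ 0) (hJ : JD.IsJordan J) {h k : FB F}
    (hh : st (bF F) h = h) (hk : st (bF F) k = k) :
    rr F x y h * rr F x y k = rr F x y (jm F h k) := by
  have h1 := rho_mul2 (bF_mul F) (bF_nil F) Hull.e_mul h2 (Hull.isJordan hJ)
    (x := Hull.inr F J x) (y := Hull.inr F J y) hh hk
  have h3 : rr F x y (jm F h k) = (2 : F)⁻¹ • rr F x y (h * k + k * h) := by
    rw [jm, map_smul]
  have h4 : rr F x y (h * k + k * h) = (2 : F) • (rr F x y h * rr F x y k) := by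
    rw [two_smul, ← two_nsmul]
    exact h1.symm
  rw [h3, h4, smul_smul, inv_mul_cancel₀ h2, one_smul]

theorem st_jm {h k : FB F} (hh : st (bF F) h = h) (hk : st (bF F) k = k) :
    st (bF F) (jm F h k) = jm F h k := by
  rw [jm, map_smul, map_add, st_mul (bF_mul F), st_mul (bF_mul F), hh, hk, add_comm]

theorem exists_sym (h2 : (2 : F) ≠ 0) (hJ : JD.IsJordan J)
    (hgen : ∀ T : Submodule F J, x ∈ T → y ∈ T → (∀ a ∈ T, ∀ b ∈ T, a * b ∈ T) → T = ⊤) (j : J) :
    ∃ h : FB F, (h, j) ∈ ZZ F x y := by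
  have hT := hgen ((ZZ F x y).map (LinearMap.snd F (FB F) J)) ?_ ?_ ?_
  · have hj : j ∈ (ZZ F x y).map (LinearMap.snd F (FB F) J) := by
      rw [hT]
      exact Submodule.mem_top
    obtain ⟨z, hz, rfl⟩ := hj
    exact ⟨z.1, hz⟩
  · refine ⟨(bF F [true], x), ⟨st_b (bF F) [true], ?_⟩, rfl⟩
    exact rho_bx (bF_mul F) (bF_nil F) Hull.e_mul h2 (Hull.isJordan hJ)
  · refine ⟨(bF F [false], y), ⟨st_b (bF F) [false], ?_⟩, rfl⟩
    exact rho_by (bF_mul F) (bF_nil F) Hull.e_mul h2 (Hull.isJordan hJ)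
  · rintro _ ⟨z, ⟨hz1, hz2⟩, rfl⟩ _ ⟨w, ⟨hw1, hw2⟩, rfl⟩
    refine ⟨(jm F z.1 w.1, z.2 * w.2), ⟨st_jm hz1 hw1, ?_⟩, rfl⟩
    show rr F x y (jm F z.1 w.1) = Hull.inr F J (z.2 * w.2)
    rw [← rr_mul x y h2 hJ hz1 hw1, hz2, hw2, Hull.inr_mul]

variable (F) in
/-- The module on which `J` acts. -/
noncomputable def YM : Submodule F (FB F →ₗ[F] Hull F J) where
  carrier := {ψ | ∀ k : FB F, st (bF F) k = k → rr F x y k = 0 → ∀ p q, ψ (p * k * q) = 0}
  zero_mem' := fun _ _ _ _ _ => rfl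
  add_mem' := by
    intro ψ φ h1 h3 k hk h0 p q
    show ψ (p * k * q) + φ (p * k * q) = 0
    rw [h1 k hk h0, h3 k hk h0, add_zero]
  smul_mem' := by
    intro r ψ h1 k hk h0 p q
    show r • ψ (p * k * q) = 0
    rw [h1 k hk h0, smul_zero]

variable (F) in
/-- The action of `s` through left multiplication. -/
noncomputable def act (s : FB F) : YM F x y →ₗ[F] YM F x y where
  toFun ψ := ⟨ψ.1 ∘ₗ LinearMap.mulLeft F s, by
    intro k hk h0 p q
    show ψ.1 (s * (p * k * q)) = 0
    have h1 := ψ.2 k hk h0 (s * p) q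
    rw [← h1]
    congr 1
    noncomm_ring⟩
  map_add' ψ φ := rfl
  map_smul' r ψ := rfl

theorem act_apply (s : FB F) (ψ : YM F x y) (a : FB F) : (act F x y s ψ).1 a = ψ.1 (s * a) := rfl

theorem act_add (s t : FB F) : act F x y (s + t) = act F x y s + act F x y t := by
  ext ψ a
  show ψ.1 ((s + t) * _) = ψ.1 (s * _) + ψ.1 (t * _)
  rw [add_mul, map_add]

theorem act_smul (r : F) (s : FB F) : act F x y (r • s) = r • act F x y s := by
  ext ψ a
  show ψ.1 ((r • s) * _) = r • ψ.1 (s * _)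
  rw [smul_mul_assoc, map_smul]

theorem act_mul (s t : FB F) : act F x y s * act F x y t = act F x y (t * s) := by
  ext ψ a
  show ψ.1 (t * (s * _)) = ψ.1 ((t * s) * _)
  rw [mul_assoc]

theorem act_ker {k : FB F} (hk : st (bF F) k = k) (h0 : rr F x y k = 0) :
    act F x y k = 0 := by
  ext ψ a
  show ψ.1 (k * _) = 0
  have h1 := ψ.2 k hk h0 1 (MonoidAlgebra.single a 1)
  rw [one_mul] at h1
  exact h1

/-- The Shirshov-Cohn theorem. -/
theorem special_of_two_gen (h2 : (2 : F) ≠ 0) (hJ : JD.IsJordan J)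
    (hgen : ∀ T : Submodule F J, x ∈ T → y ∈ T → (∀ a ∈ T, ∀ b ∈ T, a * b ∈ T) → T = ⊤) :
    JD.IsSpecial.{u, v, max u v} F J := by
  have hsurj : Function.Surjective ((LinearMap.snd F (FB F) J) ∘ₗ (ZZ F x y).subtype) := by
    intro j
    obtain ⟨h, hh⟩ := exists_sym x y h2 hJ hgen j
    exact ⟨⟨(h, j), hh⟩, rfl⟩
  obtain ⟨σ, hσ⟩ := LinearMap.exists_rightInverse_of_surjective _ (LinearMap.range_eq_top.2 hsurj)
  have hσ' : ∀ j : J, (σ j).1.2 = j := fun j => LinearMap.congr_fun hσ j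
  have hs1 : ∀ j : J, st (bF F) (σ j).1.1 = (σ j).1.1 := fun j => (σ j).2.1
  have hs2 : ∀ j : J, rr F x y (σ j).1.1 = Hull.inr F J j := fun j => by
    have h1 := (σ j).2.2
    rw [hσ' j] at h1
    exact h1
  let Φ : J →ₗ[F] Module.End F (YM F x y) :=
    { toFun := fun j => act F x y (σ j).1.1
      map_add' := fun i j => by
        have h1 : (σ (i + j)).1.1 = (σ i).1.1 + (σ j).1.1 := by
          rw [map_add]
          rfl
        rw [h1, act_add]
      map_smul' := fun r j => by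
        have h1 : (σ (r • j)).1.1 = r • (σ j).1.1 := by
          rw [map_smul]
          rfl
        rw [h1, act_smul]
        rfl }
  have hρ : rr F x y ∈ YM F x y := by
    intro k hk h0 p q
    exact rho_ideal (bF_mul F) (bF_nil F) Hull.e_mul h2 (Hull.isJordan hJ) hk h0 p q
  refine ⟨Module.End F (YM F x y), inferInstance, inferInstance, inferInstance, inferInstance,
    Φ, ?_, ?_⟩
  · intro i j hij
    have h1 : (act F x y (σ i).1.1) ⟨rr F x y, hρ⟩ = (act F x y (σ j).1.1) ⟨rr F x y, hρ⟩ :=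
      congrArg (fun T : Module.End F (YM F x y) => T ⟨rr F x y, hρ⟩) hij
    have h3 : ((act F x y (σ i).1.1) ⟨rr F x y, hρ⟩).1 1 =
        ((act F x y (σ j).1.1) ⟨rr F x y, hρ⟩).1 1 := by rw [h1]
    rw [act_apply, act_apply, mul_one, mul_one] at h3
    have h4 : Hull.inr F J i = Hull.inr F J j := by
      rw [← hs2 i, ← hs2 j]
      exact h3
    exact Hull.inr_inj h4
  · intro i j
    show act F x y (σ (i * j)).1.1 = (2 : F)⁻¹ • (act F x y (σ i).1.1 * act F x y (σ j).1.1 +
      act F x y (σ j).1.1 * act F x y (σ i).1.1)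
    have h1 : act F x y ((σ (i * j)).1.1 - jm F (σ i).1.1 (σ j).1.1) = 0 := by
      apply act_ker
      · rw [map_sub, hs1, st_jm (hs1 i) (hs1 j)]
      · rw [map_sub, hs2, ← rr_mul x y h2 hJ (hs1 i) (hs1 j), hs2, hs2, Hull.inr_mul, sub_self]
    have h3 : act F x y (σ (i * j)).1.1 = act F x y (jm F (σ i).1.1 (σ j).1.1) := by
      have h4 : (σ (i * j)).1.1 = ((σ (i * j)).1.1 - jm F (σ i).1.1 (σ j).1.1) +
          jm F (σ i).1.1 (σ j).1.1 := by abel
      rw [h4, act_add, h1, zero_add]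
    rw [h3, jm, act_smul, act_add, act_mul, act_mul, add_comm]

end special

end Pool.Agent.H78.Mac
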