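import Pool.Agent.H8.JD.Crit
import Pool.Agent.H8.JD.Pow
import Pool.Agent.H78.Mac.TwoGen

set_option autoImplicit false

/-!
# JD: critical algebras have at least three generators

By the Shirshov-Cohn theorem (`TwoGen`), a Jordan algebra with two generators is special.
-/

namespace JD

universe u

variable {K : Type u} [Field K] {J : Type u} [NonUnitalNonAssocCommRing J]
  [Module K J] [IsScalarTower K J J] [SMulCommClass K J J] {c : ℕ} {e : J}

theorem crit_n_le_two (h : Crit K J c e) (hn : ngen K J ≤ 2) : False := by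
  have hfin := h.fin
  have hnil : IsNilpotentAlg K J := ⟨c + 1, by omega, h.bot⟩
  obtain ⟨x, hx⟩ := exists_gens (F := K) (J := J) hnil
  let g : ℕ → J := fun i => if hi : i < ngen K J then x ⟨i, hi⟩ else 0
  apply h.exc
  refine Pool.Agent.H78.Mac.special_of_two_gen (F := K) (J := J) (x := g 0) (y := g 1)
    h.two h.jordan ?_
  intro T h0 h1 hT
  refine hx.gen T ?_ hT
  intro i
  have hi := i.2
  have hg : x i = g i.1 := by
    simp only [g, dif_pos hi]
  rw [hg]
  obtain h2 | h2 : i.1 = 0 ∨ i.1 = 1 := by omega
  · rw [h2]; exact h0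
  · rw [h2]; exact h1

end JD
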