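import Pool.Agent.H78.Mac.Rho

/-!
# The unital hull of a Jordan algebra
-/

set_option autoImplicit false

namespace Pool.Agent.H78.Mac

universe u v

/-- The unital hull. -/
def Hull (F : Type u) (J : Type v) : Type (max u v) := F × J

section

variable (F : Type u) [Field F] (J : Type v) [NonUnitalNonAssocCommRing J] [Module F J]
  [IsScalarTower F J J] [SMulCommClass F J J]

instance : AddCommGroup (Hull F J) := inferInstanceAs (AddCommGroup (F × J))

instance : Module F (Hull F J) := inferInstanceAs (Module F (F × J))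

instance : Mul (Hull F J) := ⟨fun a b => ((a.1 * b.1, a.1 • b.2 + b.1 • a.2 + a.2 * b.2) : F × J)⟩

variable {F J}

theorem Hull.ext' {a b : Hull F J} (h1 : a.1 = b.1) (h2 : a.2 = b.2) : a = b :=
  Prod.ext h1 h2

theorem Hull.mul_fst (a b : Hull F J) : (a * b).1 = a.1 * b.1 := rfl

theorem Hull.mul_snd (a b : Hull F J) : (a * b).2 = a.1 • b.2 + b.1 • a.2 + a.2 * b.2 := rfl

theorem Hull.add_fst (a b : Hull F J) : (a + b).1 = a.1 + b.1 := rfl

theorem Hull.add_snd (a b : Hull F J) : (a + b).2 = a.2 + b.2 := rfl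

theorem Hull.smul_fst (r : F) (a : Hull F J) : (r • a).1 = r * a.1 := rfl

theorem Hull.smul_snd (r : F) (a : Hull F J) : (r • a).2 = r • a.2 := rfl

theorem Hull.zero_fst : (0 : Hull F J).1 = 0 := rfl

theorem Hull.zero_snd : (0 : Hull F J).2 = 0 := rfl

instance : NonUnitalNonAssocCommRing (Hull F J) where
  left_distrib a b c := by
    apply Hull.ext'
    · simp only [Hull.mul_fst, Hull.add_fst]
      ring
    · simp only [Hull.mul_snd, Hull.add_fst, Hull.add_snd, smul_add, add_smul, mul_add]
      abel
  right_distrib a b c := by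
    apply Hull.ext'
    · simp only [Hull.mul_fst, Hull.add_fst]
      ring
    · simp only [Hull.mul_snd, Hull.add_fst, Hull.add_snd, smul_add, add_smul, add_mul]
      abel
  zero_mul a := by
    apply Hull.ext'
    · simp only [Hull.mul_fst, Hull.zero_fst, zero_mul]
    · simp only [Hull.mul_snd, Hull.zero_fst, Hull.zero_snd, zero_mul, zero_smul, smul_zero,
        add_zero]
  mul_zero a := by
    apply Hull.ext'
    · simp only [Hull.mul_fst, Hull.zero_fst, mul_zero]
    · simp only [Hull.mul_snd, Hull.zero_fst, Hull.zero_snd, mul_zero, zero_smul, smul_zero,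
        add_zero]
  mul_comm a b := by
    apply Hull.ext'
    · simp only [Hull.mul_fst]
      ring
    · simp only [Hull.mul_snd]
      rw [mul_comm a.2 b.2]
      abel

instance : IsScalarTower F (Hull F J) (Hull F J) := ⟨fun r a b => by
  apply Hull.ext'
  · simp only [smul_eq_mul, Hull.mul_fst, Hull.smul_fst]
    ring
  · simp only [smul_eq_mul, Hull.mul_snd, Hull.smul_fst, Hull.smul_snd, smul_add, smul_smul,
      smul_mul_assoc]
    congr 3
    ring⟩

instance : SMulCommClass F (Hull F J) (Hull F J) := ⟨fun r a b => by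
  apply Hull.ext'
  · simp only [smul_eq_mul, Hull.mul_fst, Hull.smul_fst]
    ring
  · simp only [smul_eq_mul, Hull.mul_snd, Hull.smul_fst, Hull.smul_snd, smul_add, smul_smul,
      mul_smul_comm]
    congr 3
    ring⟩

/-- The unit. -/
def Hull.e : Hull F J := ((1 : F), (0 : J))

theorem Hull.e_mul (a : Hull F J) : Hull.e * a = a := by
  apply Hull.ext'
  · exact one_mul _
  · show (1 : F) • a.2 + a.1 • (0 : J) + 0 * a.2 = a.2
    rw [one_smul, smul_zero, zero_mul, add_zero, add_zero]

variable (F J) in
/-- The inclusion. -/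
def Hull.inr : J →ₗ[F] Hull F J := LinearMap.inr F F J

theorem Hull.inr_fst (a : J) : (Hull.inr F J a).1 = 0 := rfl

theorem Hull.inr_snd (a : J) : (Hull.inr F J a).2 = a := rfl

theorem Hull.inr_mul (a b : J) : Hull.inr F J (a * b) = Hull.inr F J a * Hull.inr F J b := by
  apply Hull.ext'
  · exact (mul_zero _).symm
  · show a * b = (0 : F) • b + (0 : F) • a + a * b
    rw [zero_smul, zero_smul, zero_add, zero_add]

theorem Hull.inr_inj {a b : J} (h : Hull.inr F J a = Hull.inr F J b) : a = b :=
  congrArg (fun t : Hull F J => t.2) h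

theorem Hull.isJordan (hJ : JD.IsJordan J) : JD.IsJordan (Hull F J) := by
  intro a c
  apply Hull.ext'
  · simp only [Hull.mul_fst]
    ring
  · simp only [Hull.mul_fst, Hull.mul_snd, smul_add, smul_smul, add_mul, mul_add, smul_mul_assoc,
      mul_smul_comm]
    have h := hJ a.2 c.2
    have e1 : c.2 * a.2 = a.2 * c.2 := mul_comm _ _
    rw [e1] at h ⊢
    have e2 : a.2 * c.2 * a.2 = a.2 * (a.2 * c.2) := mul_comm _ _
    have e3 : a.2 * a.2 * a.2 = a.2 * (a.2 * a.2) := mul_comm _ _
    rw [e2]
    linear_combination (norm := module) h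

end

end Pool.Agent.H78.Mac
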