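import Pool.Agent.H78.Mac.Core
import Pool.Agent.H8.JD.Basic

/-!
# Macdonald's theorem: the operators of a unital Jordan algebra

`A` is a Jordan algebra with unit `e` over a field of characteristic not 2, `x y : A`.
-/

set_option autoImplicit false

namespace Pool.Agent.H78.Mac

section chain

variable {R : Type*} [Ring R]

/-- The basic chain of identities (left version). -/
theorem chainL (hcan : ∀ a b : R, 2 * a = 2 * b → a = b) {l y : ℕ → R} {u c : R}
    (h0 : l 0 = 1) (y0 : y 0 = c) (hu : u * l 1 = l 1 * u)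
    (hrec : ∀ k, l (k + 2) = 2 * (l 1 * l (k + 1)) - u * l k)
    (hL : ∀ k, l (k + 1) * y 1 + l 1 * y (k + 1) = y (k + 2) + u * (l k * c)) (k : ℕ) :
    2 * (l 1 * y (k + 1)) = y (k + 2) + u * y k := by
  have key : ∀ k, 2 * (l 1 * y (k + 1)) = y (k + 2) + u * y k ∧
      2 * (l 1 * y (k + 1 + 1)) = y (k + 1 + 2) + u * y (k + 1) := by
    intro k
    induction k with
    | zero =>
      have e0 : 2 * (l 1 * y (0 + 1)) = y (0 + 2) + u * y 0 := by
        have e1 := hL 0
        rw [h0, one_mul] at e1
        rw [y0]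
        linear_combination (norm := noncomm_ring) e1
      refine ⟨e0, ?_⟩
      apply hcan
      have e2 := hrec 0
      have e1 := hL 1
      rw [h0, mul_one] at e2
      rw [y0] at e0
      simp only [zero_add] at e0 e1 e2 ⊢
      linear_combination (norm := noncomm_ring) 2 * e1 - 2 * e2 * y 1 - 2 * l 1 * e0 + 2 * hu * c
    | succ k ih =>
      obtain ⟨a0, a1⟩ := ih
      refine ⟨a1, ?_⟩
      apply hcan
      have b0 : 2 * (l (k + 1) * y 1) = y (k + 2) + u * (2 * (l k * c) - y k) := by
        linear_combination (norm := noncomm_ring) 2 * hL k - a0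
      have b1 : 2 * (l (k + 2) * y 1) = y (k + 3) + u * (2 * (l (k + 1) * c) - y (k + 1)) := by
        have e := hL (k + 1)
        linear_combination (norm := noncomm_ring) 2 * e - a1
      have e1 := hL (k + 2)
      have e2 := hrec (k + 1)
      have e3 := hrec k
      linear_combination (norm := noncomm_ring) 2 * e1 - 2 * e2 * y 1 - 2 * l 1 * b1 + u * b0 +
        2 * u * e3 * c + u * a0 + 4 * hu * (l (k + 1) * c) - 2 * hu * y (k + 1)
  exact (key k).1

/-- The basic chain of identities (right version). -/
theorem chainR (hcan : ∀ a b : R, 2 * a = 2 * b → a = b) {l y : ℕ → R} {u c : R}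
    (h0 : l 0 = 1) (y0 : y 0 = c) (hu : l 1 * u = u * l 1)
    (hrec : ∀ k, l (k + 2) = 2 * (l (k + 1) * l 1) - l k * u)
    (hL : ∀ k, y 1 * l (k + 1) + y (k + 1) * l 1 = y (k + 2) + c * l k * u) (k : ℕ) :
    2 * (y (k + 1) * l 1) = y (k + 2) + y k * u := by
  have key : ∀ k, 2 * (y (k + 1) * l 1) = y (k + 2) + y k * u ∧
      2 * (y (k + 1 + 1) * l 1) = y (k + 1 + 2) + y (k + 1) * u := by
    intro k
    induction k with
    | zero =>
      have e0 : 2 * (y (0 + 1) * l 1) = y (0 + 2) + y 0 * u := by
        have e1 := hL 0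
        rw [h0, mul_one] at e1
        rw [y0]
        linear_combination (norm := noncomm_ring) e1
      refine ⟨e0, ?_⟩
      apply hcan
      have e2 := hrec 0
      have e1 := hL 1
      rw [h0, one_mul] at e2
      rw [y0] at e0
      simp only [zero_add] at e0 e1 e2 ⊢
      linear_combination (norm := noncomm_ring) 2 * e1 - 2 * y 1 * e2 - 2 * e0 * l 1 + 2 * c * hu
    | succ k ih =>
      obtain ⟨a0, a1⟩ := ih
      refine ⟨a1, ?_⟩
      apply hcan
      have b0 : 2 * (y 1 * l (k + 1)) = y (k + 2) + (2 * (c * l k) - y k) * u := by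
        linear_combination (norm := noncomm_ring) 2 * hL k - a0
      have b1 : 2 * (y 1 * l (k + 2)) = y (k + 3) + (2 * (c * l (k + 1)) - y (k + 1)) * u := by
        have e := hL (k + 1)
        linear_combination (norm := noncomm_ring) 2 * e - a1
      have e1 := hL (k + 2)
      have e2 := hrec (k + 1)
      have e3 := hrec k
      linear_combination (norm := noncomm_ring) 2 * e1 - 2 * y 1 * e2 - 2 * b1 * l 1 + b0 * u +
        2 * c * e3 * u + a0 * u + 4 * c * l (k + 1) * hu - 2 * y (k + 1) * hu
  exact (key k).1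

end chain

section ops

variable (F : Type*) [Field F] {A : Type*} [NonUnitalNonAssocCommRing A] [Module F A]
  [IsScalarTower F A A] [SMulCommClass F A A]

/-- The multiplication by `a`. -/
def L (a : A) : Module.End F A := LinearMap.mulLeft F a

theorem L_apply (a b : A) : L F a b = a * b := rfl

theorem L_add (a b : A) : L F (a + b) = L F a + L F b := by
  ext z
  exact add_mul a b z

theorem L_smul (r : F) (a : A) : L F (r • a) = r • L F a := by
  ext z
  exact smul_mul_assoc r a z

theorem End_can (h2 : (2 : F) ≠ 0) (a b : Module.End F A) (h : 2 * a = 2 * b) : a = b := by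
  have h3 : (2 : F) • a = (2 : F) • b := by
    rw [two_smul, two_smul]
    simpa [two_mul] using h
  have := congrArg (fun t => (2 : F)⁻¹ • t) h3
  simpa [smul_smul, inv_mul_cancel₀ h2] using this

theorem L_comm_sq (hJ : JD.IsJordan A) (a : A) : L F (a * a) * L F a = L F a * L F (a * a) := by
  ext z
  have h := hJ a z
  show (a * a) * (a * z) = a * ((a * a) * z)
  rw [mul_comm a z, ← h, mul_comm]

/-- The right form of the Jordan identity. -/
theorem JFR (h2 : (2 : F) ≠ 0) (hJ : JD.IsJordan A) (a b d : A) :
    L F (a * b * d) = L F (a * b) * L F d + L F (a * d) * L F b + L F (b * d) * L F a -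
      L F a * L F d * L F b - L F b * L F d * L F a := by
  ext z
  have h := JD.lin3 F h2 hJ a b z d
  show (a * b * d) * z = (a * b) * (d * z) + (a * d) * (b * z) + (b * d) * (a * z) -
      a * (d * (b * z)) - b * (d * (a * z))
  have e1 : z * d = d * z := mul_comm z d
  have e2 : (b * z) * (a * d) = (a * d) * (b * z) := mul_comm _ _
  have e3 : (z * a) * (b * d) = (b * d) * (a * z) := by rw [mul_comm z a, mul_comm]
  have e4 : ((b * z) * d) * a = a * (d * (b * z)) := by rw [mul_comm, mul_comm (b * z) d]
  have e5 : ((z * a) * d) * b = b * (d * (a * z)) := by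
    rw [mul_comm, mul_comm (z * a) d, mul_comm z a]
  rw [e1, e2, e3, e4, e5] at h
  rw [← h]
  abel

/-- The commutator form of the Jordan identity. -/
theorem JC (h2 : (2 : F) ≠ 0) (hJ : JD.IsJordan A) (a b c : A) :
    L F c * L F (a * b) + L F a * L F (b * c) + L F b * L F (c * a) =
      L F (a * b) * L F c + L F (b * c) * L F a + L F (c * a) * L F b := by
  ext z
  have h := JD.lin3 F h2 hJ a b c z
  show c * ((a * b) * z) + a * ((b * c) * z) + b * ((c * a) * z) =
    (a * b) * (c * z) + (b * c) * (a * z) + (c * a) * (b * z)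
  rw [← h, mul_comm c, mul_comm a ((b * c) * z), mul_comm b ((c * a) * z)]

/-- The left form of the Jordan identity. -/
theorem JFL (h2 : (2 : F) ≠ 0) (hJ : JD.IsJordan A) (a b d : A) :
    L F (a * b * d) = L F d * L F (a * b) + L F b * L F (a * d) + L F a * L F (b * d) -
      L F b * L F d * L F a - L F a * L F d * L F b := by
  have h1 := JFR F h2 hJ a b d
  have h3 := JC F h2 hJ a b d
  rw [mul_comm d a] at h3
  linear_combination (norm := noncomm_ring) h1 - h3

/-- The powers of `x` (with `x^0 = e`). -/
def pw (e x : A) : ℕ → A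
  | 0 => e
  | k + 1 => x * pw e x k

/-- `W i j = U_(x^i, y^j)`. -/
def WW (e x y : A) (i j : ℕ) : Module.End F A :=
  2 * (L F (pw e x i) * L F (pw e y j) + L F (pw e y j) * L F (pw e x i) -
    L F (pw e x i * pw e y j))

/-- `U_x`. -/
def UU (x : A) : Module.End F A := 2 * (L F x * L F x) - L F (x * x)

variable {e : A} (he : ∀ a : A, e * a = a)

include he

theorem L_unit : L F e = 1 := by
  ext z
  exact he z

theorem pw_one (x : A) : pw e x 1 = x := by
  show x * e = x
  rw [mul_comm, he]

theorem pw_rec (h2 : (2 : F) ≠ 0) (hJ : JD.IsJordan A) (x : A) (k : ℕ) :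
    (L F x * L F (pw e x k) = L F (pw e x k) * L F x ∧
      L F (x * x) * L F (pw e x k) = L F (pw e x k) * L F (x * x)) ∧
    (L F x * L F (pw e x (k + 1)) = L F (pw e x (k + 1)) * L F x ∧
      L F (x * x) * L F (pw e x (k + 1)) = L F (pw e x (k + 1)) * L F (x * x)) ∧
    L F (pw e x (k + 2)) = 2 * (L F x * L F (pw e x (k + 1))) - UU F x * L F (pw e x k) := by
  have hstep : ∀ k, L F (pw e x (k + 2)) = L F (pw e x (k + 1)) * L F x +
      L F (pw e x (k + 1)) * L F x + L F (x * x) * L F (pw e x k) -
      L F (pw e x k) * L F x * L F x - L F x * L F x * L F (pw e x k) := by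
    intro k
    have h := JFR F h2 hJ (pw e x k) x x
    have e1 : pw e x k * x * x = pw e x (k + 2) := by
      show _ = x * (x * pw e x k)
      rw [mul_comm (pw e x k) x, mul_comm]
    have e2 : pw e x k * x = pw e x (k + 1) := by
      show _ = x * pw e x k
      rw [mul_comm]
    rw [e1, e2] at h
    exact h
  have hsq := L_comm_sq F hJ x
  have hcomm : ∀ k, (L F x * L F (pw e x k) = L F (pw e x k) * L F x ∧
      L F (x * x) * L F (pw e x k) = L F (pw e x k) * L F (x * x)) ∧
    (L F x * L F (pw e x (k + 1)) = L F (pw e x (k + 1)) * L F x ∧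
      L F (x * x) * L F (pw e x (k + 1)) = L F (pw e x (k + 1)) * L F (x * x)) := by
    intro k
    induction k with
    | zero =>
      have e0 : L F (pw e x 0) = 1 := L_unit F he
      have e1 : L F (pw e x (0 + 1)) = L F x := by rw [zero_add, pw_one he]
      rw [e0, e1]
      exact ⟨⟨by simp, by simp⟩, rfl, hsq⟩
    | succ k ih =>
      refine ⟨ih.2, ?_⟩
      obtain ⟨⟨a1, a2⟩, a3, a4⟩ := ih
      rw [hstep k]
      constructor
      · linear_combination (norm := noncomm_ring) 2 * a3 * L F x + L F (x * x) * a1 -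
          hsq * L F (pw e x k) - a1 * L F x * L F x - L F x * L F x * a1
      · linear_combination (norm := noncomm_ring) 2 * a4 * L F x + 2 * L F (pw e x (k + 1)) * hsq +
          L F (x * x) * a2 - a2 * L F x * L F x - L F (pw e x k) * hsq * L F x -
          L F (pw e x k) * L F x * hsq - hsq * L F x * L F (pw e x k) -
          L F x * hsq * L F (pw e x k) - L F x * L F x * a2
  refine ⟨(hcomm k).1, (hcomm k).2, ?_⟩
  obtain ⟨⟨a1, a2⟩, a3, a4⟩ := hcomm k
  rw [hstep k, UU]
  linear_combination (norm := noncomm_ring) -2 * a3 + a1 * L F x + L F x * a1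

end ops

end Pool.Agent.H78.Mac
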