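import Pool.Agent.H78.Mac.JId

/-!
# Macdonald's theorem: the operators `W i j` of a unital Jordan algebra satisfy `MacData`
-/

set_option autoImplicit false

namespace Pool.Agent.H78.Mac

variable (F : Type*) [Field F] {A : Type*} [NonUnitalNonAssocCommRing A] [Module F A]
  [IsScalarTower F A A] [SMulCommClass F A A]

/-- Half of `U_(x^k, c)`. -/
def YY (e x c : A) (k : ℕ) : Module.End F A :=
  L F (pw e x k) * L F c + L F c * L F (pw e x k) - L F (pw e x k * c)

theorem WW_eq (e x y : A) (i j : ℕ) : WW F e x y i j = 2 * YY F e x (pw e y j) i := rfl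

theorem WW_eq' (e x y : A) (i j : ℕ) : WW F e x y i j = 2 * YY F e y (pw e x i) j := by
  rw [WW, YY, mul_comm (pw e y j) (pw e x i), add_comm (L F (pw e x i) * L F (pw e y j))]

variable {e : A} (he : ∀ a : A, e * a = a)

include he

theorem UU_comm (h2 : (2 : F) ≠ 0) (hJ : JD.IsJordan A) (x : A) :
    UU F x * L F x = L F x * UU F x := by
  have h := L_comm_sq F hJ x
  rw [UU]
  linear_combination (norm := noncomm_ring) -h

theorem chain_left (h2 : (2 : F) ≠ 0) (hJ : JD.IsJordan A) (x c : A) (k : ℕ) :
    2 * (L F x * YY F e x c (k + 1)) = YY F e x c (k + 2) + UU F x * YY F e x c k := by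
  have p1 : L F (pw e x 1) = L F x := by rw [pw_one he]
  have p0 : L F (pw e x 0) = 1 := L_unit F he
  have key := chainL (End_can F h2) (l := fun k => L F (pw e x k)) (y := YY F e x c) (u := UU F x)
    (c := L F c) p0 ?_ ?_ ?_ ?_ k
  · simp only [p1] at key
    exact key
  · rw [YY, p0]
    have e0 : pw e x 0 * c = c := he c
    rw [e0]
    noncomm_ring
  · simp only [p1]
    exact UU_comm F he h2 hJ x
  · intro k
    simp only [p1]
    exact (pw_rec F he h2 hJ x k).2.2
  · intro k
    simp only [p1]
    obtain ⟨-, ⟨a3, -⟩, hr⟩ := pw_rec F he h2 hJ x k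
    have hJF := JFL F h2 hJ x (pw e x (k + 1)) c
    have e1 : x * pw e x (k + 1) = pw e x (k + 2) := rfl
    have e2 : pw e x 1 = x := pw_one he x
    rw [e1] at hJF
    simp only [YY, e2]
    linear_combination (norm := noncomm_ring) hJF - a3 * L F c - hr * L F c

theorem chain_right (h2 : (2 : F) ≠ 0) (hJ : JD.IsJordan A) (x c : A) (k : ℕ) :
    2 * (YY F e x c (k + 1) * L F x) = YY F e x c (k + 2) + YY F e x c k * UU F x := by
  have p1 : L F (pw e x 1) = L F x := by rw [pw_one he]
  have p0 : L F (pw e x 0) = 1 := L_unit F he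
  have hrec' : ∀ k, L F (pw e x (k + 2)) =
      2 * (L F (pw e x (k + 1)) * L F x) - L F (pw e x k) * UU F x := by
    intro k
    obtain ⟨⟨a1, a2⟩, ⟨a3, -⟩, hr⟩ := pw_rec F he h2 hJ x k
    rw [hr, UU]
    linear_combination (norm := noncomm_ring) 2 * a3 - 2 * a1 * L F x - 2 * L F x * a1 + a2
  have key := chainR (End_can F h2) (l := fun k => L F (pw e x k)) (y := YY F e x c) (u := UU F x)
    (c := L F c) p0 ?_ ?_ ?_ ?_ k
  · simp only [p1] at key
    exact key
  · rw [YY, p0]
    have e0 : pw e x 0 * c = c := he c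
    rw [e0]
    noncomm_ring
  · simp only [p1]
    exact (UU_comm F he h2 hJ x).symm
  · intro k
    simp only [p1]
    exact hrec' k
  · intro k
    simp only [p1]
    obtain ⟨-, ⟨a3, -⟩, -⟩ := pw_rec F he h2 hJ x k
    have hJF := JFR F h2 hJ x (pw e x (k + 1)) c
    have hr := hrec' k
    have e1 : x * pw e x (k + 1) = pw e x (k + 2) := rfl
    have e2 : pw e x 1 = x := pw_one he x
    rw [e1] at hJF
    simp only [YY, e2]
    linear_combination (norm := noncomm_ring) hJF - L F c * hr + L F c * a3

theorem YY_zero (x c : A) : YY F e x c 0 = L F c := by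
  have e0 : pw e x 0 * c = c := he c
  have p0 : L F (pw e x 0) = 1 := L_unit F he
  rw [YY, p0, e0]
  noncomm_ring

theorem WW_10 (x y : A) : WW F e x y 1 0 = 2 * L F x := by
  rw [WW_eq', YY_zero F he, pw_one he]

theorem WW_01 (x y : A) : WW F e x y 0 1 = 2 * L F y := by
  rw [WW_eq, YY_zero F he, pw_one he]

theorem WW_11 (x y : A) :
    WW F e x y 1 1 = 2 * (L F x * L F y + L F y * L F x - L F (x * y)) := by
  rw [WW, pw_one he, pw_one he]

/-- The operators of a unital Jordan algebra satisfy the identities. -/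
theorem macData (h2 : (2 : F) ≠ 0) (hJ : JD.IsJordan A) (x y : A) :
    MacData (WW F e x y) (UU F x) (UU F y) where
  zero := by
    have p0 : L F (pw e y 0) = 1 := L_unit F he
    rw [WW_eq, YY_zero F he, p0, mul_one]
  ux := by
    rw [WW_10 F he, mul_assoc, ← UU_comm F he h2 hJ x]
    noncomm_ring
  vy := by
    rw [WW_01 F he, mul_assoc, ← UU_comm F he h2 hJ y]
    noncomm_ring
  lx := by
    intro k j
    have h := chain_left F he h2 hJ x (pw e y j) k
    rw [WW_10 F he, WW_eq, WW_eq, WW_eq]
    linear_combination (norm := noncomm_ring) 2 * h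
  ly := by
    intro i k
    have h := chain_left F he h2 hJ y (pw e x i) k
    rw [WW_01 F he, WW_eq', WW_eq', WW_eq']
    linear_combination (norm := noncomm_ring) 2 * h
  rx := by
    intro k j
    have h := chain_right F he h2 hJ x (pw e y j) k
    rw [WW_10 F he, WW_eq, WW_eq, WW_eq]
    linear_combination (norm := noncomm_ring) -2 * h
  ry := by
    intro i k
    have h := chain_right F he h2 hJ y (pw e x i) k
    rw [WW_01 F he, WW_eq', WW_eq', WW_eq']
    linear_combination (norm := noncomm_ring) -2 * h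

end Pool.Agent.H78.Mac
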