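import Pool.Agent.H78.Mac.Words

/-!
# The homomorphism from the symmetric elements of the free algebra on two letters to a unital
Jordan algebra, and Cohn's theorem for two letters
-/

set_option autoImplicit false

namespace Pool.Agent.H78.Mac

variable {F : Type*} [Field F] {A : Type*} [NonUnitalNonAssocCommRing A] [Module F A]
  [IsScalarTower F A A] [SMulCommClass F A A]
  {B : Type*} [Ring B] [Algebra F B] (b : Module.Basis (List Bool) F B) (e x y : A)

open Classical in
/-- The S-system of a unital Jordan algebra. -/
noncomputable def SA (w : List Bool) : A :=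
  if w = [] then e else
    if h : ∃ f : A, (f, hat b w) ∈ Gr b x y w.length then Classical.choose h else 0

theorem SA_nil : SA b e x y [] = e := by
  simp [SA]

/-- The reversal. -/
noncomputable def st : B →ₗ[F] B := b.constr F (fun w => b w.reverse)

theorem st_b (w : List Bool) : st b (b w) = b w.reverse := by
  simp [st]

theorem st_st (h : B) : st b (st b h) = h := by
  have h1 : (st b) ∘ₗ (st b) = LinearMap.id := by
    apply b.ext
    intro w
    simp [st_b]
  exact LinearMap.congr_fun h1 h

/-- The homomorphism, extended to all of the free algebra through symmetrisation. -/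
noncomputable def rho : B →ₗ[F] A := b.constr F (SA b e x y)

theorem rho_b (w : List Bool) : rho b e x y (b w) = SA b e x y w := by
  simp [rho]

theorem rho_rho_ext {T T' : B →ₗ[F] B →ₗ[F] A}
    (h : ∀ p q : List Bool, T (b p) (b q) = T' (b p) (b q)) (p q : B) : T p q = T' p q := by
  have h1 : T = T' := by
    apply b.ext
    intro p
    apply b.ext
    intro q
    exact h p q
  rw [h1]

theorem B_ext {T T' : B →ₗ[F] B →ₗ[F] B}
    (h : ∀ p q : List Bool, T (b p) (b q) = T' (b p) (b q)) (p q : B) : T p q = T' p q := by
  have h1 : T = T' := by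
    apply b.ext
    intro p
    apply b.ext
    intro q
    exact h p q
  rw [h1]

variable {b e x y}

theorem SA_spec (hb : ∀ v w, b (v ++ w) = b v * b w) (h2 : (2 : F) ≠ 0) {w : List Bool}
    (hw : w ≠ []) : (SA b e x y w, hat b w) ∈ Gr b x y w.length := by
  have h : ∃ f : A, (f, hat b w) ∈ Gr b x y w.length := exists_S hb h2 w hw
  have h1 : SA b e x y w = Classical.choose h := by
    rw [SA, if_neg hw, dif_pos h]
  rw [h1]
  exact Classical.choose_spec h

theorem st_mul (hb : ∀ v w, b (v ++ w) = b v * b w) (h k : B) :
    st b (h * k) = st b k * st b h := by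
  refine B_ext b (T := (LinearMap.mul F B).compr₂ (st b))
    (T' := ((LinearMap.mul F B).flip.compl₂ (st b)) ∘ₗ (st b)) ?_ h k
  intro p q
  simp only [LinearMap.compr₂_apply, LinearMap.mul_apply', LinearMap.comp_apply,
    LinearMap.compl₂_apply, LinearMap.flip_apply, st_b]
  rw [← hb, st_b, List.reverse_append, hb]

theorem st_one (hb1 : b [] = 1) : st b (1 : B) = 1 := by
  rw [← hb1, st_b]
  rfl

theorem st_pow (hb : ∀ v w, b (v ++ w) = b v * b w) (hb1 : b [] = 1) {h : B} (hh : st b h = h)
    (n : ℕ) : st b (h ^ n) = h ^ n := by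
  induction n with
  | zero => rw [pow_zero, st_one hb1]
  | succ n ih =>
    rw [pow_succ, st_mul hb, ih, hh, ← pow_succ, ← pow_succ']

theorem hat_nil (h2 : (2 : F) ≠ 0) (hb1 : b [] = 1) : hat b [] = 1 := by
  have h1 : dbl b [] = (2 : F) • (1 : B) := by
    rw [two_smul, ← hb1]
    rfl
  rw [hat, h1, smul_smul, inv_mul_cancel₀ h2, one_smul]

section unital

variable (hb : ∀ v w, b (v ++ w) = b v * b w) (hb1 : b [] = 1) (he : ∀ a : A, e * a = a)
  (h2 : (2 : F) ≠ 0) (hJ : JD.IsJordan A)

include hb hb1 he h2 hJ

theorem SA_VV (w : List Bool) : VV F b e x y (SA b e x y w) (hat b w) := by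
  by_cases hw : w = []
  · subst hw
    rw [SA_nil, hat_nil h2 hb1]
    intro p q
    rw [L_unit F he, one_mul, one_mul, mul_one]
    noncomm_ring
  · exact Gr_VV hb he h2 hJ (SA_spec hb h2 hw)

theorem SA_rev (w : List Bool) : SA b e x y w.reverse = SA b e x y w := by
  have h1 := SA_VV (x := x) (y := y) hb hb1 he h2 hJ w
  have h3 := SA_VV (x := x) (y := y) hb hb1 he h2 hJ w.reverse
  rw [hat_rev] at h3
  exact VV_unique hb1 he h2 hJ h3 h1

theorem hat_single (a : Bool) : hat b [a] = b [a] := by
  have h1 : dbl b [a] = (2 : F) • b [a] := by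
    rw [two_smul]
    rfl
  rw [hat, h1, smul_smul, inv_mul_cancel₀ h2, one_smul]

theorem SA_x : SA b e x y [true] = x := by
  have h1 := SA_VV (x := x) (y := y) hb hb1 he h2 hJ [true]
  rw [hat_single hb hb1 he h2 hJ] at h1
  exact VV_unique hb1 he h2 hJ h1 (VV_x hb he h2 hJ)

theorem SA_y : SA b e x y [false] = y := by
  have h1 := SA_VV (x := x) (y := y) hb hb1 he h2 hJ [false]
  rw [hat_single hb hb1 he h2 hJ] at h1
  exact VV_unique hb1 he h2 hJ h1 (VV_y hb he h2 hJ)

theorem jm_one_left (h : B) : jm F 1 h = h := by
  rw [jm, one_mul, mul_one, ← two_smul F, smul_smul, inv_mul_cancel₀ h2, one_smul]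

theorem SA_VV_mul (v w : List Bool) :
    VV F b e x y (SA b e x y v * SA b e x y w) (jm F (hat b v) (hat b w)) := by
  by_cases hv : v = []
  · subst hv
    rw [SA_nil, he, hat_nil h2 hb1, jm_one_left hb hb1 he h2 hJ]
    exact SA_VV hb hb1 he h2 hJ w
  · by_cases hw : w = []
    · subst hw
      rw [mul_comm, jm_comm, SA_nil, he, hat_nil h2 hb1, jm_one_left hb hb1 he h2 hJ]
      exact SA_VV hb hb1 he h2 hJ v
    · exact Gr_VV hb he h2 hJ (Gr_mul (SA_spec (e := e) hb h2 hv) (SA_spec (e := e) hb h2 hw))

theorem SA_mul (v w : List Bool) :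
    (4 : F) • (SA b e x y v * SA b e x y w) = SA b e x y (v ++ w) + SA b e x y (v ++ w.reverse) +
      SA b e x y (v.reverse ++ w) + SA b e x y (w ++ v) := by
  have h1 := VV_smul 4 (SA_VV_mul (x := x) (y := y) hb hb1 he h2 hJ v w)
  rw [hat_mul b h2 hb] at h1
  have hV := SA_VV (x := x) (y := y) hb hb1 he h2 hJ
  have h3 := VV_add (VV_add (VV_add (hV (v ++ w)) (hV (v ++ w.reverse))) (hV (v.reverse ++ w)))
    (hV (w ++ v))
  exact VV_unique hb1 he h2 hJ h1 h3

theorem rho_st (h : B) : rho b e x y (st b h) = rho b e x y h := by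
  have h1 : (rho b e x y) ∘ₗ (st b) = rho b e x y := by
    apply b.ext
    intro w
    rw [LinearMap.comp_apply, st_b, rho_b, rho_b, SA_rev hb hb1 he h2 hJ]
  exact LinearMap.congr_fun h1 h

theorem rho_mul4 (h k : B) : (4 : F) • (rho b e x y h * rho b e x y k) =
    rho b e x y (h * k + h * st b k + st b h * k + k * h) := by
  refine rho_rho_ext b (T := (4 : F) • ((LinearMap.mul F A) ∘ₗ (rho b e x y)).compl₂
      (rho b e x y))
    (T' := ((LinearMap.mul F B) + (LinearMap.mul F B).compl₂ (st b) +
      (LinearMap.mul F B) ∘ₗ (st b) + (LinearMap.mul F B).flip).compr₂ (rho b e x y)) ?_ h k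
  intro p q
  simp only [LinearMap.compr₂_apply, LinearMap.mul_apply', LinearMap.comp_apply,
    LinearMap.compl₂_apply, LinearMap.flip_apply, LinearMap.add_apply, LinearMap.smul_apply,
    st_b, ← hb, map_add, rho_b]
  exact SA_mul hb hb1 he h2 hJ p q

/-- The product of the images of symmetric elements. -/
theorem rho_mul {h k : B} (hh : st b h = h) (hk : st b k = k) :
    rho b e x y h * rho b e x y k = rho b e x y (h * k) := by
  have h1 := rho_mul4 (x := x) (y := y) hb hb1 he h2 hJ h k
  have h3 : rho b e x y (k * h) = rho b e x y (h * k) := by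
    rw [← rho_st hb hb1 he h2 hJ (h * k), st_mul hb, hh, hk]
  rw [hh, hk, map_add, map_add, map_add, h3] at h1
  have h4 : (4 : F) ≠ 0 := by
    have e2 : (4 : F) = 2 * 2 := by norm_num
    rw [e2]
    exact mul_ne_zero h2 h2
  have h5 : rho b e x y (h * k) + rho b e x y (h * k) + rho b e x y (h * k) +
      rho b e x y (h * k) = (4 : F) • rho b e x y (h * k) := by
    have e2 : (4 : F) = 1 + 1 + 1 + 1 := by norm_num
    rw [e2]
    simp only [add_smul, one_smul]
  rw [h5] at h1
  have h6 := congrArg (fun t => (4 : F)⁻¹ • t) h1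
  simpa [smul_smul, inv_mul_cancel₀ h4] using h6

theorem rho_one : rho b e x y (1 : B) = e := by
  rw [← hb1, rho_b, SA_nil]

theorem rho_bx : rho b e x y (b [true]) = x := by
  rw [rho_b, SA_x hb hb1 he h2 hJ]

theorem rho_by : rho b e x y (b [false]) = y := by
  rw [rho_b, SA_y hb hb1 he h2 hJ]

theorem pw_rho_x (k : ℕ) : pw e x k = rho b e x y (b [true] ^ k) := by
  have hs : st b (b [true]) = b [true] := st_b b [true]
  induction k with
  | zero => rw [pow_zero, rho_one hb hb1 he h2 hJ]; rfl
  | succ k ih =>
    show x * pw e x k = _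
    rw [ih, pow_succ', ← rho_mul hb hb1 he h2 hJ hs (st_pow hb hb1 hs k),
      rho_bx hb hb1 he h2 hJ]

theorem pw_rho_y (k : ℕ) : pw e y k = rho b e x y (b [false] ^ k) := by
  have hs : st b (b [false]) = b [false] := st_b b [false]
  induction k with
  | zero => rw [pow_zero, rho_one hb hb1 he h2 hJ]; rfl
  | succ k ih =>
    show y * pw e y k = _
    rw [ih, pow_succ', ← rho_mul hb hb1 he h2 hJ hs (st_pow hb hb1 hs k),
      rho_by hb hb1 he h2 hJ]

/-- `2 (ρ h) (ρ k) = ρ (h k + k h)`, with a symmetric argument. -/
theorem rho_mul2 {h k : B} (hh : st b h = h) (hk : st b k = k) :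
    2 • (rho b e x y h * rho b e x y k) = rho b e x y (h * k + k * h) := by
  have h3 : rho b e x y (k * h) = rho b e x y (h * k) := by
    rw [← rho_st hb hb1 he h2 hJ (h * k), st_mul hb, hh, hk]
  rw [rho_mul hb hb1 he h2 hJ hh hk, map_add, h3, two_nsmul]

theorem W_rho (i j : ℕ) {h : B} (hh : st b h = h) :
    WW F e x y i j (rho b e x y h) =
      rho b e x y (b [true] ^ i * h * b [false] ^ j + b [false] ^ j * h * b [true] ^ i) := by
  have hX : st b (b [true] ^ i) = b [true] ^ i := st_pow hb hb1 (st_b b [true]) i
  have hY : st b (b [false] ^ j) = b [false] ^ j := st_pow hb hb1 (st_b b [false]) j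
  have e1 : WW F e x y i j (rho b e x y h) =
      pw e x i * (2 • (pw e y j * rho b e x y h)) + pw e y j * (2 • (pw e x i * rho b e x y h)) -
        (2 • (pw e x i * pw e y j)) * rho b e x y h := by
    rw [WW, two_mul]
    simp only [LinearMap.add_apply, LinearMap.sub_apply, Module.End.mul_apply, L_apply, two_nsmul,
      mul_add, add_mul]
    abel
  have hs1 : st b (b [false] ^ j * h + h * b [false] ^ j) =
      b [false] ^ j * h + h * b [false] ^ j := by
    rw [map_add, st_mul hb, st_mul hb, hY, hh, add_comm]
  have hs2 : st b (b [true] ^ i * h + h * b [true] ^ i) =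
      b [true] ^ i * h + h * b [true] ^ i := by
    rw [map_add, st_mul hb, st_mul hb, hX, hh, add_comm]
  have hs3 : st b (b [true] ^ i * b [false] ^ j + b [false] ^ j * b [true] ^ i) =
      b [true] ^ i * b [false] ^ j + b [false] ^ j * b [true] ^ i := by
    rw [map_add, st_mul hb, st_mul hb, hX, hY, add_comm]
  rw [e1, pw_rho_x (x := x) (y := y) hb hb1 he h2 hJ i,
    pw_rho_y (x := x) (y := y) hb hb1 he h2 hJ j, rho_mul2 hb hb1 he h2 hJ hY hh,
    rho_mul2 hb hb1 he h2 hJ hX hh, rho_mul2 hb hb1 he h2 hJ hX hY,
    rho_mul hb hb1 he h2 hJ hX hs1, rho_mul hb hb1 he h2 hJ hY hs2,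
    rho_mul hb hb1 he h2 hJ hs3 hh, ← map_add, ← map_sub]
  congr 1
  noncomm_ring

theorem G_rho (n : ℕ) : ∀ (i j : ℕ) (p q : List Bool), p.length + q.length ≤ n →
    ∀ h : B, st b h = h → G (WW F e x y) i j p q (rho b e x y h) =
      rho b e x y (b [true] ^ i * (b p * h * b q.reverse) * b [false] ^ j +
        b [false] ^ j * (b q * h * b p.reverse) * b [true] ^ i) := by
  have cx : ∀ p : List Bool, b (true :: p) = b [true] * b p := fun p => hb [true] p
  have cy : ∀ p : List Bool, b (false :: p) = b [false] * b p := fun p => hb [false] p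
  have rx : ∀ p : List Bool, b (true :: p).reverse = b p.reverse * b [true] := fun p => by
    rw [List.reverse_cons, hb]
  have ry : ∀ p : List Bool, b (false :: p).reverse = b p.reverse * b [false] := fun p => by
    rw [List.reverse_cons, hb]
  have hX : st b (b [true]) = b [true] := st_b b [true]
  have hY : st b (b [false]) = b [false] := st_b b [false]
  have hsym : ∀ (p q : List Bool) (h : B), st b h = h →
      st b (b [true] ^ 1 * (b p * h * b q.reverse) * b [false] ^ 1 +
        b [false] ^ 1 * (b q * h * b p.reverse) * b [true] ^ 1) =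
      b [true] ^ 1 * (b p * h * b q.reverse) * b [false] ^ 1 +
        b [false] ^ 1 * (b q * h * b p.reverse) * b [true] ^ 1 := by
    intro p q h hh
    simp only [pow_one, map_add, st_mul hb, hX, hY, hh, st_b, List.reverse_reverse]
    rw [add_comm]
    noncomm_ring
  induction n with
  | zero =>
    intro i j p q hpq h hh
    have hp : p = [] := by
      rw [← List.length_eq_zero_iff]
      omega
    have hq : q = [] := by
      rw [← List.length_eq_zero_iff]
      omega
    subst hp hq
    rw [G_nn, W_rho hb hb1 he h2 hJ i j hh]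
    have e1 : b ([] : List Bool).reverse = 1 := hb1
    rw [e1, hb1]
    simp only [one_mul, mul_one]
  | succ n ih =>
    intro i j p q hpq h hh
    match p, q with
    | true :: p, q =>
      simp only [List.length_cons] at hpq
      rw [G_x, ih (i + 1) j p q (by omega) h hh, cx p, rx p]
      congr 1
      have e1 : b [true] ^ (i + 1) * (b p * h * b q.reverse) * b [false] ^ j =
          b [true] ^ i * (b [true] * b p * h * b q.reverse) * b [false] ^ j := by
        rw [pow_succ]
        noncomm_ring
      have e2 : b [false] ^ j * (b q * h * b p.reverse) * b [true] ^ (i + 1) =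
          b [false] ^ j * (b q * h * (b p.reverse * b [true])) * b [true] ^ i := by
        rw [pow_succ']
        noncomm_ring
      rw [e1, e2]
    | p, false :: q =>
      simp only [List.length_cons] at hpq
      rw [G_y, ih i (j + 1) p q (by omega) h hh, cy q, ry q]
      congr 1
      have e1 : b [true] ^ i * (b p * h * b q.reverse) * b [false] ^ (j + 1) =
          b [true] ^ i * (b p * h * (b q.reverse * b [false])) * b [false] ^ j := by
        rw [pow_succ']
        noncomm_ring
      have e2 : b [false] ^ (j + 1) * (b q * h * b p.reverse) * b [true] ^ i =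
          b [false] ^ j * (b [false] * b q * h * b p.reverse) * b [true] ^ i := by
        rw [pow_succ]
        noncomm_ring
      rw [e1, e2]
    | false :: p, true :: q =>
      simp only [List.length_cons] at hpq
      rw [G_yx, LinearMap.sub_apply, Module.End.mul_apply, ih 1 1 q p (by omega) h hh,
        ih (i + 1) (j + 1) q p (by omega) h hh, W_rho hb hb1 he h2 hJ i j (hsym q p h hh),
        ← map_sub, cy p, ry p, cx q, rx q]
      congr 1
      have e1 : b [true] ^ (i + 1) * (b q * h * b p.reverse) * b [false] ^ (j + 1) =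
          b [true] ^ i * (b [true] * (b q * h * b p.reverse) * b [false]) * b [false] ^ j := by
        rw [pow_succ, pow_succ']
        noncomm_ring
      have e2 : b [false] ^ (j + 1) * (b p * h * b q.reverse) * b [true] ^ (i + 1) =
          b [false] ^ j * (b [false] * (b p * h * b q.reverse) * b [true]) * b [true] ^ i := by
        rw [pow_succ, pow_succ']
        noncomm_ring
      rw [e1, e2]
      simp only [pow_one]
      noncomm_ring
    | false :: p, [] =>
      simp only [List.length_cons, List.length_nil] at hpq
      have s1 := hsym [] p h hh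
      have e0 : b ([] : List Bool).reverse = 1 := hb1
      rw [G_yn, LinearMap.sub_apply, Module.End.mul_apply,
        ih 0 1 [] p (by simp only [List.length_nil]; omega) h hh,
        ih i (j + 1) [] p (by simp only [List.length_nil]; omega) h hh, cy p, ry p, e0, hb1]
      simp only [pow_zero, pow_one, one_mul, mul_one]
      have s2 : st b (h * b p.reverse * b [false] + b [false] * (b p * h)) =
          h * b p.reverse * b [false] + b [false] * (b p * h) := by
        simp only [map_add, st_mul hb, hY, hh, st_b, List.reverse_reverse]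
        rw [add_comm, ← mul_assoc]
        first | done | noncomm_ring
      rw [W_rho hb hb1 he h2 hJ i j s2, ← map_sub]
      congr 1
      have e1 : b [true] ^ i * (h * b p.reverse) * b [false] ^ (j + 1) =
          b [true] ^ i * (h * b p.reverse * b [false]) * b [false] ^ j := by
        rw [pow_succ']
        noncomm_ring
      have e2 : b [false] ^ (j + 1) * (b p * h) * b [true] ^ i =
          b [false] ^ j * (b [false] * (b p * h)) * b [true] ^ i := by
        rw [pow_succ]
        noncomm_ring
      rw [e1, e2]
      noncomm_ring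
    | [], true :: q =>
      simp only [List.length_cons, List.length_nil] at hpq
      have e0 : b ([] : List Bool).reverse = 1 := hb1
      rw [G_nx, LinearMap.sub_apply, Module.End.mul_apply,
        ih 1 0 q [] (by simp only [List.length_nil]; omega) h hh,
        ih (i + 1) j q [] (by simp only [List.length_nil]; omega) h hh, cx q, rx q, e0, hb1]
      simp only [pow_zero, pow_one, one_mul, mul_one]
      have s2 : st b (b [true] * (b q * h) + h * b q.reverse * b [true]) =
          b [true] * (b q * h) + h * b q.reverse * b [true] := by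
        simp only [map_add, st_mul hb, hX, hh, st_b, List.reverse_reverse]
        rw [add_comm, ← mul_assoc]
        first | done | noncomm_ring
      rw [W_rho hb hb1 he h2 hJ i j s2, ← map_sub]
      congr 1
      have e1 : b [true] ^ (i + 1) * (b q * h) * b [false] ^ j =
          b [true] ^ i * (b [true] * (b q * h)) * b [false] ^ j := by
        rw [pow_succ]
        noncomm_ring
      have e2 : b [false] ^ j * (h * b q.reverse) * b [true] ^ (i + 1) =
          b [false] ^ j * (h * b q.reverse * b [true]) * b [true] ^ i := by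
        rw [pow_succ']
        noncomm_ring
      rw [e1, e2]
      noncomm_ring
    | [], [] =>
      rw [G_nn, W_rho hb hb1 he h2 hJ i j hh]
      have e1 : b ([] : List Bool).reverse = 1 := hb1
      rw [e1, hb1]
      simp only [one_mul, mul_one]

/-- The operators `M p q` on the image of a symmetric element. -/
theorem M_rho (p q : List Bool) {h : B} (hh : st b h = h) :
    M (WW F e x y) p q (rho b e x y h) =
      rho b e x y (b p * h * b q.reverse + b q * h * b p.reverse) := by
  have h1 := G_rho (x := x) (y := y) hb hb1 he h2 hJ _ 0 0 p q le_rfl h hh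
  rw [M, h1]
  simp only [pow_zero, one_mul, mul_one]

/-- Cohn's theorem for two letters. -/
theorem rho_ideal_words {k : B} (hk : st b k = k) (h0 : rho b e x y k = 0) (p q : List Bool) :
    rho b e x y (b p * k * b q) = 0 := by
  have h1 := M_rho (x := x) (y := y) hb hb1 he h2 hJ p q.reverse hk
  rw [h0, map_zero, List.reverse_reverse] at h1
  have h3 : b q.reverse * k * b p.reverse = st b (b p * k * b q) := by
    rw [st_mul hb, st_mul hb, hk, st_b, st_b]
    noncomm_ring
  rw [h3, map_add, rho_st hb hb1 he h2 hJ, ← two_smul F] at h1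
  exact (smul_eq_zero.1 h1.symm).resolve_left h2

theorem rho_ideal {k : B} (hk : st b k = k) (h0 : rho b e x y k = 0) (p q : B) :
    rho b e x y (p * k * q) = 0 := by
  have h1 := rho_rho_ext b (T := ((LinearMap.mul F B) ∘ₗ (LinearMap.mulRight F k)).compr₂
    (rho b e x y)) (T' := 0) (fun p q => ?_) p q
  · simpa using h1
  · simpa using rho_ideal_words hb hb1 he h2 hJ hk h0 p q

end unital

end Pool.Agent.H78.Mac
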