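import Pool.Agent.H78.Mac.TwoGen
import Pool.Agent.H8.JD.Pow

/-!
# The S-system of two elements of a Jordan algebra, and words with one further letter

* `exists_SSys2`: S-system for letters `x : Bool → J` (`J` nilpotent).
* `exists_SZ`: a map `S` for words in two letters (all lengths, `J` arbitrary) and a map
  `T z p r` (the word `p z r`, `z` arbitrary) with the product rule.
-/

set_option autoImplicit false

namespace Pool.Agent.H78.Mac

universe u v

variable {F : Type u} [Field F] {J : Type v} [NonUnitalNonAssocCommRing J] [Module F J]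
  [IsScalarTower F J J] [SMulCommClass F J J]

theorem ev_inr (x y : J) (t : Mon) :
    t.ev (Hull.inr F J x) (Hull.inr F J y) = Hull.inr F J (t.ev x y) := by
  induction t with
  | lt a => cases a <;> rfl
  | mul s t h1 h2 =>
    show s.ev (Hull.inr F J x) (Hull.inr F J y) * t.ev (Hull.inr F J x) (Hull.inr F J y) = _
    rw [h1, h2, ← Hull.inr_mul]
    rfl

variable (F) in
/-- The span of the monomials of degree `n`. -/
def MS (x y : J) (n : ℕ) : Submodule F J := Submodule.span F {a | ∃ t : Mon, t.deg = n ∧ a = t.ev x y}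

theorem Gr_inr (x y : J) {n : ℕ} {z : Hull F J × FB F}
    (hz : z ∈ Gr (bF F) (Hull.inr F J x) (Hull.inr F J y) n) :
    ∃ f ∈ MS F x y n, z.1 = Hull.inr F J f := by
  refine Submodule.span_induction (p := fun z _ => ∃ f ∈ MS F x y n, z.1 = Hull.inr F J f)
    ?_ ?_ ?_ ?_ hz
  · rintro z ⟨t, ht, rfl⟩
    exact ⟨t.ev x y, Submodule.subset_span ⟨t, ht, rfl⟩, ev_inr x y t⟩
  · exact ⟨0, Submodule.zero_mem _, (map_zero _).symm⟩
  · rintro z w _ _ ⟨f, hf, h1⟩ ⟨g, hg, h3⟩
    refine ⟨f + g, Submodule.add_mem _ hf hg, ?_⟩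
    show z.1 + w.1 = _
    rw [h1, h3, map_add]
  · rintro r z _ ⟨f, hf, h1⟩
    refine ⟨r • f, Submodule.smul_mem _ _ hf, ?_⟩
    show r • z.1 = _
    rw [h1, map_smul]

variable (F J) in
/-- The projection to `J`. -/
def Hull.snd : Hull F J →ₗ[F] J := LinearMap.snd F F J

theorem Hull.snd_inr (a : J) : Hull.snd F J (Hull.inr F J a) = a := rfl

variable (F J) in
/-- The projection to `F`. -/
def Hull.fst : Hull F J →ₗ[F] F := LinearMap.fst F F J

theorem Hull.fst_inr (a : J) : Hull.fst F J (Hull.inr F J a) = 0 := rfl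

theorem Hull.fst_mul (a b : Hull F J) :
    Hull.fst F J (a * b) = Hull.fst F J a * Hull.fst F J b := rfl

theorem Hull.eq_inr {a : Hull F J} (h : Hull.fst F J a = 0) :
    a = Hull.inr F J (Hull.snd F J a) :=
  Hull.ext' h rfl

open Classical in
variable (F) in
/-- The S-values of words in two letters. -/
noncomputable def SJ (x y : J) (w : List Bool) : J :=
  if w = [] then 0 else
    Hull.snd F J (SA (bF F) Hull.e (Hull.inr F J x) (Hull.inr F J y) w)

theorem SJ_spec (h2 : (2 : F) ≠ 0) (x y : J) {w : List Bool} (hw : w ≠ []) :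
    SA (bF F) Hull.e (Hull.inr F J x) (Hull.inr F J y) w = Hull.inr F J (SJ F x y w) ∧
      SJ F x y w ∈ MS F x y w.length := by
  have h1 := SA_spec (e := (Hull.e : Hull F J)) (x := Hull.inr F J x) (y := Hull.inr F J y)
    (bF_mul F) h2 hw
  obtain ⟨f, hf, h3⟩ := Gr_inr x y h1
  have h3' : SA (bF F) Hull.e (Hull.inr F J x) (Hull.inr F J y) w = Hull.inr F J f := h3
  have h4 : SJ F x y w = f := by
    rw [SJ, if_neg hw, h3', Hull.snd_inr]
  rw [h4]
  exact ⟨h3', hf⟩

theorem SJ_nil (x y : J) : SJ F x y [] = 0 := by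
  simp [SJ]

theorem SJ_rev (h2 : (2 : F) ≠ 0) (hJ : JD.IsJordan J) (x y : J) (w : List Bool) :
    SJ F x y w.reverse = SJ F x y w := by
  by_cases hw : w = []
  · subst hw
    rfl
  · have hw' : w.reverse ≠ [] := by simpa using hw
    apply Hull.inr_inj (F := F)
    rw [← (SJ_spec h2 x y hw).1, ← (SJ_spec h2 x y hw').1]
    exact SA_rev (bF_mul F) (bF_nil F) Hull.e_mul h2 (Hull.isJordan hJ) w

theorem SJ_mul (h2 : (2 : F) ≠ 0) (hJ : JD.IsJordan J) (x y : J) {v w : List Bool}
    (hv : v ≠ []) (hw : w ≠ []) :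
    (4 : F) • (SJ F x y v * SJ F x y w) = SJ F x y (v ++ w) + SJ F x y (v ++ w.reverse) +
      SJ F x y (v.reverse ++ w) + SJ F x y (w ++ v) := by
  have h1 := SA_mul (x := Hull.inr F J x) (y := Hull.inr F J y) (bF_mul F) (bF_nil F) Hull.e_mul h2
    (Hull.isJordan hJ) v w
  rw [(SJ_spec h2 x y hv).1, (SJ_spec h2 x y hw).1,
    (SJ_spec h2 x y (w := v ++ w) (by simp [hv])).1,
    (SJ_spec h2 x y (w := v ++ w.reverse) (by simp [hv])).1,
    (SJ_spec h2 x y (w := v.reverse ++ w) (by simp [hv])).1,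
    (SJ_spec h2 x y (w := w ++ v) (by simp [hv])).1, ← Hull.inr_mul, ← map_smul, ← map_add,
    ← map_add, ← map_add] at h1
  exact Hull.inr_inj h1

theorem SJ_x (h2 : (2 : F) ≠ 0) (hJ : JD.IsJordan J) (x y : J) : SJ F x y [true] = x := by
  apply Hull.inr_inj (F := F)
  rw [← (SJ_spec h2 x y (w := [true]) (by simp)).1]
  exact SA_x (bF_mul F) (bF_nil F) Hull.e_mul h2 (Hull.isJordan hJ)

theorem SJ_y (h2 : (2 : F) ≠ 0) (hJ : JD.IsJordan J) (x y : J) : SJ F x y [false] = y := by
  apply Hull.inr_inj (F := F)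
  rw [← (SJ_spec h2 x y (w := [false]) (by simp)).1]
  exact SA_y (bF_mul F) (bF_nil F) Hull.e_mul h2 (Hull.isJordan hJ)

theorem ev_mem_jpow (x y : J) (t : Mon) : t.ev x y ∈ JD.jpow F J t.deg := by
  induction t with
  | lt a =>
    show (Mon.lt a).ev x y ∈ JD.jpow F J 1
    rw [JD.jpow_one]
    exact Submodule.mem_top
  | mul s t h1 h3 => exact JD.mul_mem_jpow h1 h3

theorem MS_le_jpow (x y : J) (n : ℕ) : MS F x y n ≤ JD.jpow F J n := by
  refine Submodule.span_le.2 ?_
  rintro a ⟨t, ht, rfl⟩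
  rw [← ht]
  exact ev_mem_jpow x y t

/-- The S-system of two elements of a nilpotent Jordan algebra. -/
theorem exists_SSys2 (h2 : (2 : F) ≠ 0) (hJ : JD.IsJordan J) (hn : JD.IsNilpotentAlg F J)
    (x : Bool → J) : ∃ S : List Bool → J, JD.SSys F x S ∧
      ∀ w, w ≠ [] → S w ∈ JD.jpow F J w.length := by
  have hmem : ∀ w, w ≠ [] → SJ F (x true) (x false) w ∈ JD.jpow F J w.length := fun w hw =>
    MS_le_jpow _ _ _ (SJ_spec h2 (x true) (x false) hw).2
  refine ⟨SJ F (x true) (x false), ?_, hmem⟩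
  refine ⟨SJ_nil _ _, ?_, SJ_rev h2 hJ _ _, fun v w hv hw => SJ_mul h2 hJ _ _ hv hw, ?_⟩
  · intro a
    cases a
    · exact SJ_y h2 hJ _ _
    · exact SJ_x h2 hJ _ _
  · obtain ⟨n, h1, hbot⟩ := hn
    refine ⟨n, fun w hw => ?_⟩
    have hw' : w ≠ [] := by
      rintro rfl
      simp at hw
      omega
    have h3 := JD.jpow_anti (F := F) (J := J) hw (hmem w hw')
    rw [hbot, Submodule.mem_bot] at h3
    exact h3

section oneletter

/-- The endomorphisms which preserve `J`. -/
def Pres (T : Module.End F (Hull F J)) : Prop :=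
  ∀ z, Hull.fst F J z = 0 → Hull.fst F J (T z) = 0

theorem Pres.sub {T T' : Module.End F (Hull F J)} (h : Pres T) (h' : Pres T') :
    Pres (T - T') := by
  intro z hz
  rw [LinearMap.sub_apply, map_sub, h z hz, h' z hz, sub_zero]

theorem Pres.add {T T' : Module.End F (Hull F J)} (h : Pres T) (h' : Pres T') :
    Pres (T + T') := by
  intro z hz
  rw [LinearMap.add_apply, map_add, h z hz, h' z hz, add_zero]

theorem Pres.mul {T T' : Module.End F (Hull F J)} (h : Pres T) (h' : Pres T') :
    Pres (T * T') := by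
  intro z hz
  rw [Module.End.mul_apply]
  exact h _ (h' z hz)

theorem Pres_L (a : Hull F J) : Pres (L F a) := by
  intro z hz
  rw [L_apply, Hull.fst_mul, hz, mul_zero]

theorem Pres_WW (x y : Hull F J) (i j : ℕ) : Pres (WW F Hull.e x y i j) := by
  have h : Pres (L F (pw Hull.e x i) * L F (pw Hull.e y j) +
      L F (pw Hull.e y j) * L F (pw Hull.e x i) - L F (pw Hull.e x i * pw Hull.e y j)) :=
    Pres.sub (Pres.add (Pres.mul (Pres_L _) (Pres_L _)) (Pres.mul (Pres_L _) (Pres_L _)))
      (Pres_L _)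
  rw [WW, two_mul]
  exact Pres.add h h

theorem Pres_G (x y : Hull F J) (n : ℕ) : ∀ (i j : ℕ) (p q : List Bool),
    p.length + q.length ≤ n → Pres (G (WW F Hull.e x y) i j p q) := by
  induction n with
  | zero =>
    intro i j p q hpq
    have hp : p = [] := by
      rw [← List.length_eq_zero_iff]
      omega
    have hq : q = [] := by
      rw [← List.length_eq_zero_iff]
      omega
    subst hp hq
    rw [G_nn]
    exact Pres_WW x y i j
  | succ n ih =>
    intro i j p q hpq
    match p, q with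
    | true :: p, q =>
      simp only [List.length_cons] at hpq
      rw [G_x]
      exact ih _ _ p q (by omega)
    | p, false :: q =>
      simp only [List.length_cons] at hpq
      rw [G_y]
      exact ih _ _ p q (by omega)
    | false :: p, true :: q =>
      simp only [List.length_cons] at hpq
      rw [G_yx]
      exact Pres.sub (Pres.mul (Pres_WW _ _ _ _) (ih _ _ q p (by omega)))
        (ih _ _ q p (by omega))
    | false :: p, [] =>
      simp only [List.length_cons, List.length_nil] at hpq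
      rw [G_yn]
      exact Pres.sub (Pres.mul (Pres_WW _ _ _ _) (ih _ _ [] p (by rw [List.length_nil]; omega)))
        (ih _ _ [] p (by rw [List.length_nil]; omega))
    | [], true :: q =>
      simp only [List.length_cons, List.length_nil] at hpq
      rw [G_nx]
      exact Pres.sub (Pres.mul (Pres_WW _ _ _ _) (ih _ _ q [] (by rw [List.length_nil]; omega)))
        (ih _ _ q [] (by rw [List.length_nil]; omega))
    | [], [] =>
      rw [G_nn]
      exact Pres_WW x y i j

variable (F) in
/-- The operator `M p q` for `x y : J`, on the hull. -/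
noncomputable def MJ (x y : J) (p q : List Bool) : Module.End F (Hull F J) :=
  M (WW F Hull.e (Hull.inr F J x) (Hull.inr F J y)) p q

variable (F) in
/-- The value of the word `p z r` with one letter `z`. -/
noncomputable def TJ (x y : J) (p r : List Bool) (z : J) : J :=
  (2 : F)⁻¹ • Hull.snd F J (MJ F x y p r.reverse (Hull.inr F J z))

theorem MJ_inr (x y : J) (p r : List Bool) (z : J) : MJ F x y p r (Hull.inr F J z) =
    Hull.inr F J (Hull.snd F J (MJ F x y p r (Hull.inr F J z))) :=
  Hull.eq_inr (Pres_G _ _ _ 0 0 p r le_rfl _ (Hull.fst_inr z))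

theorem TJ_add (x y : J) (p r : List Bool) (z z' : J) :
    TJ F x y p r (z + z') = TJ F x y p r z + TJ F x y p r z' := by
  rw [TJ, TJ, TJ, map_add, map_add, map_add, ← smul_add]

theorem TJ_smul (x y : J) (p r : List Bool) (c : F) (z : J) :
    TJ F x y p r (c • z) = c • TJ F x y p r z := by
  rw [TJ, TJ, map_smul, map_smul, map_smul, smul_comm]

theorem TJ_nil (h2 : (2 : F) ≠ 0) (hJ : JD.IsJordan J) (x y : J) (z : J) :
    TJ F x y [] [] z = z := by
  have h1 : MJ F x y [] [] = 2 := M_nil_nil (macData F Hull.e_mul h2 (Hull.isJordan hJ)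
    (Hull.inr F J x) (Hull.inr F J y))
  have h3 : ([] : List Bool).reverse = [] := rfl
  have h4 : (2 : Module.End F (Hull F J)) (Hull.inr F J z) = (2 : F) • Hull.inr F J z := by
    rw [← one_add_one_eq_two, two_smul]
    rfl
  rw [TJ, h3, h1, h4, map_smul, Hull.snd_inr, smul_smul, inv_mul_cancel₀ h2, one_smul]

theorem TJ_rev (h2 : (2 : F) ≠ 0) (hJ : JD.IsJordan J) (x y : J) (p r : List Bool) (z : J) :
    TJ F x y r.reverse p.reverse z = TJ F x y p r z := by
  have h1 : MJ F x y p r.reverse = MJ F x y r.reverse p :=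
    M_symm (macData F Hull.e_mul h2 (Hull.isJordan hJ) (Hull.inr F J x)
      (Hull.inr F J y)) p r.reverse
  rw [TJ, TJ, List.reverse_reverse, h1]

/-- The product rule `S v * (p z r)`. -/
theorem TJ_mul (h2 : (2 : F) ≠ 0) (hJ : JD.IsJordan J) (x y : J) {v : List Bool} (hv : v ≠ [])
    (p r : List Bool) (z : J) : (4 : F) • (SJ F x y v * TJ F x y p r z) =
      TJ F x y (v ++ p) r z + TJ F x y (v.reverse ++ p) r z + TJ F x y p (r ++ v) z +
        TJ F x y p (r ++ v.reverse) z := by
  have h1 := SA_VV (x := Hull.inr F J x) (y := Hull.inr F J y) (bF_mul F) (bF_nil F) Hull.e_mul h2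
    (Hull.isJordan hJ) v (bF F p) (bF F r.reverse)
  have h3 : ∀ w : List Bool, hat (bF F) v * bF F w =
      (2 : F)⁻¹ • (bF F (v ++ w) + bF F (v.reverse ++ w)) := by
    intro w
    rw [hat, dbl, smul_mul_assoc, add_mul, bF_mul, bF_mul]
  rw [h3, h3, (SJ_spec h2 x y hv).1] at h1
  simp only [map_smul, map_add, LinearMap.smul_apply, LinearMap.add_apply, Th_b] at h1
  have h1' : (2 * L F (Hull.inr F J (SJ F x y v))) * MJ F x y p r.reverse =
      (2 : F)⁻¹ • (MJ F x y (v ++ p) r.reverse + MJ F x y (v.reverse ++ p) r.reverse) +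
      (2 : F)⁻¹ • (MJ F x y p (v ++ r.reverse) + MJ F x y p (v.reverse ++ r.reverse)) := h1
  have h4 := congrArg (fun T : Module.End F (Hull F J) => Hull.snd F J (T (Hull.inr F J z))) h1'
  have e1 : Hull.snd F J (((2 * L F (Hull.inr F J (SJ F x y v))) * MJ F x y p r.reverse)
      (Hull.inr F J z)) = (4 : F) • (SJ F x y v * TJ F x y p r z) := by
    have e2 : (((2 * L F (Hull.inr F J (SJ F x y v))) * MJ F x y p r.reverse)
        (Hull.inr F J z)) = (2 : F) • (Hull.inr F J (SJ F x y v) *
        MJ F x y p r.reverse (Hull.inr F J z)) := by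
      rw [two_smul, two_mul, add_mul, LinearMap.add_apply, Module.End.mul_apply, L_apply]
    rw [e2, MJ_inr, ← Hull.inr_mul, map_smul, Hull.snd_inr, TJ, mul_smul_comm, smul_smul]
    congr 1
    have e3 : (4 : F) = 2 * 2 := by norm_num
    rw [e3]
    field_simp
  rw [e1] at h4
  rw [h4, TJ, TJ, TJ, TJ, List.reverse_append, List.reverse_append, List.reverse_reverse]
  simp only [LinearMap.add_apply, LinearMap.smul_apply, map_add, map_smul, smul_add]
  abel

end oneletter

end Pool.Agent.H78.Mac
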