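import Pool.Agent.H78.Mac.Ops

/-!
# Macdonald's theorem and Shirshov's theorem for a unital Jordan algebra

`A` is a Jordan algebra with unit `e`, `x y : A`; `B` is the free associative algebra on `Bool`
(`true` is `x`, `false` is `y`), given by a basis `b` indexed by words.
`Th p q` is the operator `z ↦ p z q^* + q z p^*`, extended bilinearly.
`VV f h` says that the multiplication by `2 f` acts like the left multiplication with
`h ⊗ 1 + 1 ⊗ h`.
-/

set_option autoImplicit false

namespace Pool.Agent.H78.Mac

variable (F : Type*) [Field F] {A : Type*} [NonUnitalNonAssocCommRing A] [Module F A]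
  [IsScalarTower F A A] [SMulCommClass F A A]
  {B : Type*} [Ring B] [Algebra F B] (b : Module.Basis (List Bool) F B) (e x y : A)

/-- The bilinear extension of `M`. -/
noncomputable def Th : B →ₗ[F] B →ₗ[F] Module.End F A :=
  b.constr F (fun p => b.constr F (fun q => M (WW F e x y) p q))

theorem Th_b (p q : List Bool) : Th F b e x y (b p) (b q) = M (WW F e x y) p q := by
  simp [Th]

/-- The multiplication by `2 f` acts as `h ⊗ 1 + 1 ⊗ h`. -/
def VV (f : A) (h : B) : Prop :=
  ∀ p q : B, (2 * L F f) * Th F b e x y p q = Th F b e x y (h * p) q + Th F b e x y p (h * q)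

/-- The Jordan product of `B`. -/
def jm (h k : B) : B := (2 : F)⁻¹ • (h * k + k * h)

theorem bil_ext {T T' : B →ₗ[F] B →ₗ[F] Module.End F A}
    (h : ∀ p q : List Bool, T (b p) (b q) = T' (b p) (b q)) (p q : B) : T p q = T' p q := by
  have h1 : T = T' := by
    apply b.ext
    intro p
    apply b.ext
    intro q
    exact h p q
  rw [h1]

variable {F b e x y}

theorem VV_add {f g : A} {h k : B} (h1 : VV F b e x y f h) (h2 : VV F b e x y g k) :
    VV F b e x y (f + g) (h + k) := by
  intro p q
  rw [L_add, mul_add, add_mul, h1, h2]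
  simp only [add_mul, map_add, LinearMap.add_apply]
  abel

theorem VV_smul {f : A} {h : B} (r : F) (h1 : VV F b e x y f h) :
    VV F b e x y (r • f) (r • h) := by
  intro p q
  rw [L_smul, mul_smul_comm, smul_mul_assoc, h1]
  simp only [smul_mul_assoc, map_smul, LinearMap.smul_apply, smul_add]

theorem VV_zero : VV F b e x y 0 0 := by
  intro p q
  have h : L F (0 : A) = 0 := by
    ext z
    exact zero_mul z
  rw [h]
  simp

theorem VV_sub {f g : A} {h k : B} (h1 : VV F b e x y f h) (h2 : VV F b e x y g k) :
    VV F b e x y (f - g) (h - k) := by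
  have h3 := VV_add h1 (VV_smul (-1 : F) h2)
  simpa [sub_eq_add_neg] using h3

section rules

variable (hb : ∀ v w, b (v ++ w) = b v * b w) (he : ∀ a : A, e * a = a)
  (h2 : (2 : F) ≠ 0) (hJ : JD.IsJordan A)

include hb he h2 hJ

theorem VV_x : VV F b e x y x (b [true]) := by
  intro p q
  have h := macData F he h2 hJ x y
  refine bil_ext F b (T := (Th F b e x y).compr₂ (LinearMap.mulLeft F (2 * L F x)))
    (T' := (Th F b e x y) ∘ₗ (LinearMap.mulLeft F (b [true])) +
      (Th F b e x y).compl₂ (LinearMap.mulLeft F (b [true]))) ?_ p q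
  intro p q
  have h1 := V_x h p q
  rw [WW_10 F he] at h1
  have e1 : b [true] * b p = b (true :: p) := (hb [true] p).symm
  have e2 : b [true] * b q = b (true :: q) := (hb [true] q).symm
  simp only [LinearMap.compr₂_apply, LinearMap.mulLeft_apply, LinearMap.add_apply,
    LinearMap.comp_apply, LinearMap.compl₂_apply, e1, e2, Th_b]
  exact h1

theorem VV_y : VV F b e x y y (b [false]) := by
  intro p q
  have h := macData F he h2 hJ x y
  refine bil_ext F b (T := (Th F b e x y).compr₂ (LinearMap.mulLeft F (2 * L F y)))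
    (T' := (Th F b e x y) ∘ₗ (LinearMap.mulLeft F (b [false])) +
      (Th F b e x y).compl₂ (LinearMap.mulLeft F (b [false]))) ?_ p q
  intro p q
  have h1 := V_y h p q
  rw [WW_01 F he] at h1
  have e1 : b [false] * b p = b (false :: p) := (hb [false] p).symm
  have e2 : b [false] * b q = b (false :: q) := (hb [false] q).symm
  simp only [LinearMap.compr₂_apply, LinearMap.mulLeft_apply, LinearMap.add_apply,
    LinearMap.comp_apply, LinearMap.compl₂_apply, e1, e2, Th_b]
  exact h1

theorem Th_Ux (p q : B) :
    UU F x * Th F b e x y p q = Th F b e x y (b [true] * p) (b [true] * q) := by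
  have h := macData F he h2 hJ x y
  refine bil_ext F b (T := (Th F b e x y).compr₂ (LinearMap.mulLeft F (UU F x)))
    (T' := ((Th F b e x y) ∘ₗ (LinearMap.mulLeft F (b [true]))).compl₂
      (LinearMap.mulLeft F (b [true]))) ?_ p q
  intro p q
  have h1 := U_x h p q
  have e1 : b [true] * b p = b (true :: p) := (hb [true] p).symm
  have e2 : b [true] * b q = b (true :: q) := (hb [true] q).symm
  simp only [LinearMap.compr₂_apply, LinearMap.mulLeft_apply,
    LinearMap.comp_apply, LinearMap.compl₂_apply, e1, e2, Th_b]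
  exact h1

theorem Th_Uy (p q : B) :
    UU F y * Th F b e x y p q = Th F b e x y (b [false] * p) (b [false] * q) := by
  have h := macData F he h2 hJ x y
  refine bil_ext F b (T := (Th F b e x y).compr₂ (LinearMap.mulLeft F (UU F y)))
    (T' := ((Th F b e x y) ∘ₗ (LinearMap.mulLeft F (b [false]))).compl₂
      (LinearMap.mulLeft F (b [false]))) ?_ p q
  intro p q
  have h1 := U_y h p q
  have e1 : b [false] * b p = b (false :: p) := (hb [false] p).symm
  have e2 : b [false] * b q = b (false :: q) := (hb [false] q).symm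
  simp only [LinearMap.compr₂_apply, LinearMap.mulLeft_apply,
    LinearMap.comp_apply, LinearMap.compl₂_apply, e1, e2, Th_b]
  exact h1

theorem Th_W (p q : B) :
    (2 * (L F x * L F y + L F y * L F x - L F (x * y))) * Th F b e x y p q =
      Th F b e x y (b [true] * p) (b [false] * q) + Th F b e x y (b [false] * p) (b [true] * q) := by
  have h := macData F he h2 hJ x y
  refine bil_ext F b (T := (Th F b e x y).compr₂ (LinearMap.mulLeft F
      (2 * (L F x * L F y + L F y * L F x - L F (x * y)))))
    (T' := ((Th F b e x y) ∘ₗ (LinearMap.mulLeft F (b [true]))).compl₂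
      (LinearMap.mulLeft F (b [false])) + ((Th F b e x y) ∘ₗ
      (LinearMap.mulLeft F (b [false]))).compl₂ (LinearMap.mulLeft F (b [true]))) ?_ p q
  intro p q
  have h1 := W_xy h p q
  rw [WW_11 F he] at h1
  have e1 : b [true] * b p = b (true :: p) := (hb [true] p).symm
  have e2 : b [true] * b q = b (true :: q) := (hb [true] q).symm
  have e3 : b [false] * b p = b (false :: p) := (hb [false] p).symm
  have e4 : b [false] * b q = b (false :: q) := (hb [false] q).symm
  simp only [LinearMap.compr₂_apply, LinearMap.mulLeft_apply, LinearMap.add_apply,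
    LinearMap.comp_apply, LinearMap.compl₂_apply, e1, e2, e3, e4, Th_b]
  exact h1

end rules

theorem jm_eq (h2 : (2 : F) ≠ 0) (h : B) : jm F h h = h * h := by
  rw [jm, ← two_smul F (h * h), smul_smul, inv_mul_cancel₀ h2, one_smul]

theorem two_jm (h2 : (2 : F) ≠ 0) (h k : B) : (2 : F) • jm F h k = h * k + k * h := by
  rw [jm, smul_smul, mul_inv_cancel₀ h2, one_smul]

theorem jm_comm (h k : B) : jm F h k = jm F k h := by
  rw [jm, jm, add_comm]

/-- The doubled form of `VV` for a Jordan product. -/
theorem VV_jm (h2 : (2 : F) ≠ 0) {f : A} {h k : B} : VV F b e x y f (jm F h k) ↔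
    ∀ p q : B, (2 * (2 * L F f)) * Th F b e x y p q =
      Th F b e x y ((h * k + k * h) * p) q + Th F b e x y p ((h * k + k * h) * q) := by
  have key : ∀ p q : B, (2 : F) • (Th F b e x y (jm F h k * p) q +
      Th F b e x y p (jm F h k * q)) =
      Th F b e x y ((h * k + k * h) * p) q + Th F b e x y p ((h * k + k * h) * q) := by
    intro p q
    rw [smul_add, ← LinearMap.smul_apply, ← map_smul, ← smul_mul_assoc, two_jm h2, ← map_smul,
      ← smul_mul_assoc, two_jm h2]
  constructor
  · intro h1 p q
    rw [← key, ← h1 p q, mul_assoc, two_smul, two_mul]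
  · intro h1 p q
    apply End_can F h2
    have h3 := h1 p q
    rw [← key, two_smul] at h3
    rw [← mul_assoc, h3, two_mul]

section deg2

variable (hb : ∀ v w, b (v ++ w) = b v * b w) (he : ∀ a : A, e * a = a)
  (h2 : (2 : F) ≠ 0) (hJ : JD.IsJordan A)

include hb he h2 hJ

theorem VV_xx : VV F b e x y (x * x) (jm F (b [true]) (b [true])) := by
  rw [VV_jm h2]
  intro p q
  have h1 := VV_x (x := x) (y := y) hb he h2 hJ
  have h3 := Th_Ux (x := x) (y := y) hb he h2 hJ p q
  have e1 : (2 * (2 * L F (x * x))) * Th F b e x y p q =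
      2 * ((2 * L F x) * ((2 * L F x) * Th F b e x y p q)) - 4 * (UU F x * Th F b e x y p q) := by
    rw [UU]
    noncomm_ring
  rw [e1, h3, h1 p q, mul_add, h1, h1, ← mul_assoc]
  simp only [add_mul, map_add, LinearMap.add_apply, mul_assoc]
  noncomm_ring

theorem VV_yy : VV F b e x y (y * y) (jm F (b [false]) (b [false])) := by
  rw [VV_jm h2]
  intro p q
  have h1 := VV_y (x := x) (y := y) hb he h2 hJ
  have h3 := Th_Uy (x := x) (y := y) hb he h2 hJ p q
  have e1 : (2 * (2 * L F (y * y))) * Th F b e x y p q =
      2 * ((2 * L F y) * ((2 * L F y) * Th F b e x y p q)) - 4 * (UU F y * Th F b e x y p q) := by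
    rw [UU]
    noncomm_ring
  rw [e1, h3, h1 p q, mul_add, h1, h1, ← mul_assoc]
  simp only [add_mul, map_add, LinearMap.add_apply, mul_assoc]
  noncomm_ring

theorem VV_xy : VV F b e x y (x * y) (jm F (b [true]) (b [false])) := by
  rw [VV_jm h2]
  intro p q
  have h1 := VV_x (x := x) (y := y) hb he h2 hJ
  have h1' := VV_y (x := x) (y := y) hb he h2 hJ
  have h3 := Th_W (x := x) (y := y) hb he h2 hJ p q
  have e1 : (2 * (2 * L F (x * y))) * Th F b e x y p q =
      (2 * L F x) * ((2 * L F y) * Th F b e x y p q) +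
      (2 * L F y) * ((2 * L F x) * Th F b e x y p q) -
      2 * ((2 * (L F x * L F y + L F y * L F x - L F (x * y))) * Th F b e x y p q) := by
    noncomm_ring
  rw [e1, h3, h1 p q, h1' p q, mul_add, mul_add, h1, h1, h1', h1']
  simp only [add_mul, map_add, LinearMap.add_apply, mul_assoc]
  noncomm_ring

end deg2

/-- Closure under triple products. -/
theorem VV_triple (h2 : (2 : F) ≠ 0) (hJ : JD.IsJordan A) {f g k : A} {α β γ : B}
    (hf : VV F b e x y f α) (hg : VV F b e x y g β) (hk : VV F b e x y k γ)
    (hfg : VV F b e x y (f * g) (jm F α β)) (hgk : VV F b e x y (g * k) (jm F β γ))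
    (hfk : VV F b e x y (f * k) (jm F α γ)) :
    VV F b e x y (f * g * k) (jm F (jm F α β) γ) := by
  rw [VV_jm h2] at hfg hgk hfk
  rw [VV_jm h2]
  intro p q
  apply End_can F h2
  have hR := JFR F h2 hJ f g k
  have e1 : 2 * ((2 * (2 * L F (f * g * k))) * Th F b e x y p q) =
      (2 * (2 * L F (f * g))) * ((2 * L F k) * Th F b e x y p q) +
      (2 * (2 * L F (f * k))) * ((2 * L F g) * Th F b e x y p q) +
      (2 * (2 * L F (g * k))) * ((2 * L F f) * Th F b e x y p q) -
      (2 * L F f) * ((2 * L F k) * ((2 * L F g) * Th F b e x y p q)) -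
      (2 * L F g) * ((2 * L F k) * ((2 * L F f) * Th F b e x y p q)) := by
    rw [hR]
    noncomm_ring
  have e0 : (2 : F) • (jm F α β * γ + γ * jm F α β) =
      (α * β + β * α) * γ + γ * (α * β + β * α) := by
    rw [smul_add, ← smul_mul_assoc, ← mul_smul_comm, two_jm h2]
  have e2 : ∀ r s : B, 2 * (Th F b e x y ((jm F α β * γ + γ * jm F α β) * r) s) =
      Th F b e x y (((α * β + β * α) * γ + γ * (α * β + β * α)) * r) s := by
    intro r s
    rw [two_mul, ← two_smul F, ← LinearMap.smul_apply, ← map_smul, ← smul_mul_assoc, e0]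
  have e3 : ∀ r s : B, 2 * (Th F b e x y r ((jm F α β * γ + γ * jm F α β) * s)) =
      Th F b e x y r (((α * β + β * α) * γ + γ * (α * β + β * α)) * s) := by
    intro r s
    rw [two_mul, ← two_smul F, ← map_smul, ← smul_mul_assoc, e0]
  have hf' : ∀ p q : B, (2 * L F f) * Th F b e x y p q =
      Th F b e x y (α * p) q + Th F b e x y p (α * q) := hf
  have hg' : ∀ p q : B, (2 * L F g) * Th F b e x y p q =
      Th F b e x y (β * p) q + Th F b e x y p (β * q) := hg
  have hk' : ∀ p q : B, (2 * L F k) * Th F b e x y p q =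
      Th F b e x y (γ * p) q + Th F b e x y p (γ * q) := hk
  rw [e1, mul_add, e2, e3]
  simp only [mul_add, hf', hg', hk', hfg, hgk, hfk]
  simp only [add_mul, mul_add, map_add, LinearMap.add_apply, mul_assoc]
  abel

/-- Uniqueness. -/
theorem VV_unique (hb1 : b [] = 1) (he : ∀ a : A, e * a = a) (h2 : (2 : F) ≠ 0)
    (hJ : JD.IsJordan A) {f g : A} {h : B} (hf : VV F b e x y f h) (hg : VV F b e x y g h) :
    f = g := by
  have h1 := hf 1 1
  have h3 := hg 1 1
  rw [← h3] at h1
  have h4 : Th F b e x y 1 1 = 2 := by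
    rw [← hb1, Th_b]
    exact M_nil_nil (macData F he h2 hJ x y)
  rw [h4] at h1
  have h5 : L F f = L F g := by
    apply End_can F h2
    apply End_can F h2
    linear_combination (norm := noncomm_ring) h1
  have h6 := congrArg (fun T => T e) h5
  have h7 : f * e = g * e := h6
  rwa [mul_comm f, mul_comm g, he, he] at h7

/-- Nonassociative monomials in two letters. -/
inductive Mon : Type
  | lt (a : Bool) : Mon
  | mul (s t : Mon) : Mon

/-- The degree. -/
def Mon.deg : Mon → ℕ
  | .lt _ => 1
  | .mul s t => s.deg + t.deg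

theorem Mon.deg_pos (t : Mon) : 1 ≤ t.deg := by
  induction t with
  | lt a => exact le_rfl
  | mul s t h1 h2 =>
    show 1 ≤ s.deg + t.deg
    omega

/-- The value in an algebra. -/
def Mon.ev {C : Type*} [Mul C] (x y : C) : Mon → C
  | .lt true => x
  | .lt false => y
  | .mul s t => s.ev x y * t.ev x y

variable (F b) in
/-- The value in the free algebra with the Jordan product. -/
noncomputable def Mon.evB : Mon → B
  | .lt a => b [a]
  | .mul s t => jm F (Mon.evB s) (Mon.evB t)

theorem VV_mon (hb : ∀ v w, b (v ++ w) = b v * b w) (he : ∀ a : A, e * a = a)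
    (h2 : (2 : F) ≠ 0) (hJ : JD.IsJordan A) (n : ℕ) :
    ∀ t : Mon, t.deg ≤ n → VV F b e x y (t.ev x y) (t.evB F b) := by
  induction n with
  | zero =>
    intro t ht
    have := t.deg_pos
    omega
  | succ n ih =>
    intro t ht
    have triple : ∀ r s t : Mon, r.deg + s.deg + t.deg ≤ n + 1 →
        VV F b e x y (r.ev x y * s.ev x y * t.ev x y)
          (jm F (jm F (r.evB F b) (s.evB F b)) (t.evB F b)) := by
      intro r s t h
      have h1 := r.deg_pos
      have h3 := s.deg_pos
      have h4 := t.deg_pos
      exact VV_triple h2 hJ (ih r (by omega)) (ih s (by omega)) (ih t (by omega))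
        (ih (.mul r s) (by show r.deg + s.deg ≤ n; omega))
        (ih (.mul s t) (by show s.deg + t.deg ≤ n; omega))
        (ih (.mul r t) (by show r.deg + t.deg ≤ n; omega))
    match t with
    | .lt true => exact VV_x hb he h2 hJ
    | .lt false => exact VV_y hb he h2 hJ
    | .mul (.mul r s) t => exact triple r s t ht
    | .mul (.lt a) (.mul r s) =>
      have h := triple r s (.lt a) (by
        have : (Mon.lt a).deg + (r.deg + s.deg) ≤ n + 1 := ht
        omega)
      show VV F b e x y ((Mon.lt a).ev x y * (r.ev x y * s.ev x y))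
        (jm F ((Mon.lt a).evB F b) (jm F (r.evB F b) (s.evB F b)))
      rw [mul_comm, jm_comm]
      exact h
    | .mul (.lt true) (.lt true) => exact VV_xx hb he h2 hJ
    | .mul (.lt false) (.lt false) => exact VV_yy hb he h2 hJ
    | .mul (.lt true) (.lt false) => exact VV_xy hb he h2 hJ
    | .mul (.lt false) (.lt true) =>
      have h := VV_xy (F := F) (b := b) (x := x) (y := y) hb he h2 hJ
      show VV F b e x y (y * x) (jm F (b [false]) (b [true]))
      rw [mul_comm, jm_comm]
      exact h

end Pool.Agent.H78.Mac
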