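import Pool.Agent.H78.Mac.Shir

/-!
# The symmetric elements of the free algebra on two letters; the S-system of a unital Jordan algebra
-/

set_option autoImplicit false

namespace Pool.Agent.H78.Mac

variable {F : Type*} [Field F] {A : Type*} [NonUnitalNonAssocCommRing A] [Module F A]
  [IsScalarTower F A A] [SMulCommClass F A A]
  {B : Type*} [Ring B] [Algebra F B] (b : Module.Basis (List Bool) F B) (e x y : A)

/-- `w + w^*` -/
noncomputable def dbl (w : List Bool) : B := b w + b w.reverse

/-- `(w + w^*) / 2` -/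
noncomputable def hat (w : List Bool) : B := (2 : F)⁻¹ • dbl b w

theorem dbl_rev (w : List Bool) : dbl b w.reverse = dbl b w := by
  rw [dbl, dbl, List.reverse_reverse, add_comm]

theorem hat_rev (w : List Bool) : hat b w.reverse = hat b w := by
  rw [hat, hat, dbl_rev]

theorem dbl_mul (hb : ∀ v w, b (v ++ w) = b v * b w) (v w : List Bool) :
    dbl b v * dbl b w + dbl b w * dbl b v =
      dbl b (v ++ w) + dbl b (v ++ w.reverse) + dbl b (v.reverse ++ w) + dbl b (w ++ v) := by
  simp only [dbl, List.reverse_append, List.reverse_reverse, hb]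
  noncomm_ring

theorem jm_smul (r s : F) (h k : B) : jm F (r • h) (s • k) = (r * s) • jm F h k := by
  simp only [jm, smul_mul_assoc, mul_smul_comm, smul_add, smul_smul]
  congr 2 <;> ring

theorem jm_add_left (h h' k : B) : jm F (h + h') k = jm F h k + jm F h' k := by
  rw [jm, jm, jm, ← smul_add]
  congr 1
  noncomm_ring

theorem jm_add_right (h k k' : B) : jm F h (k + k') = jm F h k + jm F h k' := by
  rw [jm, jm, jm, ← smul_add]
  congr 1
  noncomm_ring

theorem jm_zero_left (k : B) : jm F 0 k = 0 := by
  simp [jm]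

theorem jm_zero_right (k : B) : jm F k 0 = 0 := by
  simp [jm]

theorem jm_smul_left (r : F) (h k : B) : jm F (r • h) k = r • jm F h k := by
  simp only [jm, smul_mul_assoc, mul_smul_comm, smul_add, smul_smul]
  congr 2 <;> ring

theorem jm_smul_right (r : F) (h k : B) : jm F h (r • k) = r • jm F h k := by
  rw [jm_comm, jm_smul_left, jm_comm]

theorem hat_mul (h2 : (2 : F) ≠ 0) (hb : ∀ v w, b (v ++ w) = b v * b w) (v w : List Bool) :
    (4 : F) • jm F (hat b v) (hat b w) =
      hat b (v ++ w) + hat b (v ++ w.reverse) + hat b (v.reverse ++ w) + hat b (w ++ v) := by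
  rw [hat, hat, jm_smul, jm, dbl_mul b hb, smul_smul, smul_smul]
  have e3 : (4 : F) * 2⁻¹ * 2⁻¹ * 2⁻¹ = 2⁻¹ := by
    have e2 : (4 : F) = 2 * 2 := by norm_num
    rw [e2]
    field_simp
  simp only [← mul_assoc]
  rw [e3]
  simp only [hat, smul_add]

/-- The graph of the homomorphism in degree `n`. -/
noncomputable def Gr (n : ℕ) : Submodule F (A × B) :=
  Submodule.span F {z | ∃ t : Mon, t.deg = n ∧ z = (t.ev x y, t.evB F b)}

variable {b e x y}

theorem Gr_VV (hb : ∀ v w, b (v ++ w) = b v * b w) (he : ∀ a : A, e * a = a)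
    (h2 : (2 : F) ≠ 0) (hJ : JD.IsJordan A) {n : ℕ} {z : A × B} (hz : z ∈ Gr b x y n) :
    VV F b e x y z.1 z.2 := by
  refine Submodule.span_induction (p := fun z _ => VV F b e x y z.1 z.2) ?_ ?_ ?_ ?_ hz
  · rintro z ⟨t, -, rfl⟩
    exact VV_mon hb he h2 hJ _ t le_rfl
  · exact VV_zero
  · intro z w _ _ h1 h3
    exact VV_add h1 h3
  · intro r z _ h1
    exact VV_smul r h1

theorem Gr_mul {m n : ℕ} {z w : A × B} (hz : z ∈ Gr b x y m) (hw : w ∈ Gr b x y n) :
    (z.1 * w.1, jm F z.2 w.2) ∈ Gr b x y (m + n) := by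
  refine Submodule.span_induction
    (p := fun z _ => (z.1 * w.1, jm F z.2 w.2) ∈ Gr b x y (m + n)) ?_ ?_ ?_ ?_ hz
  · rintro z ⟨s, hs, rfl⟩
    refine Submodule.span_induction
      (p := fun w _ => (s.ev x y * w.1, jm F (s.evB F b) w.2) ∈ Gr b x y (m + n)) ?_ ?_ ?_ ?_ hw
    · rintro w ⟨t, ht, rfl⟩
      refine Submodule.subset_span ⟨.mul s t, ?_, rfl⟩
      show s.deg + t.deg = m + n
      rw [hs, ht]
    · have e1 : ((s.ev x y * (0 : A × B).1, jm F (s.evB F b) (0 : A × B).2) : A × B) = 0 := by
        ext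
        · exact mul_zero _
        · exact jm_zero_right _
      rw [e1]
      exact Submodule.zero_mem _
    · intro w w' _ _ h1 h3
      have e1 : ((s.ev x y * (w + w').1, jm F (s.evB F b) (w + w').2) : A × B) =
          (s.ev x y * w.1, jm F (s.evB F b) w.2) + (s.ev x y * w'.1, jm F (s.evB F b) w'.2) := by
        ext
        · exact mul_add _ _ _
        · exact jm_add_right _ _ _
      rw [e1]
      exact Submodule.add_mem _ h1 h3
    · intro r w _ h1
      have e1 : ((s.ev x y * (r • w).1, jm F (s.evB F b) (r • w).2) : A × B) =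
          r • (s.ev x y * w.1, jm F (s.evB F b) w.2) := by
        ext
        · exact mul_smul_comm _ _ _
        · exact jm_smul_right _ _ _
      rw [e1]
      exact Submodule.smul_mem _ _ h1
  · have e1 : (((0 : A × B).1 * w.1, jm F (0 : A × B).2 w.2) : A × B) = 0 := by
      ext
      · exact zero_mul _
      · exact jm_zero_left _
    rw [e1]
    exact Submodule.zero_mem _
  · intro z z' _ _ h1 h3
    have e1 : (((z + z').1 * w.1, jm F (z + z').2 w.2) : A × B) =
        (z.1 * w.1, jm F z.2 w.2) + (z'.1 * w.1, jm F z'.2 w.2) := by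
      ext
      · exact add_mul _ _ _
      · exact jm_add_left _ _ _
    rw [e1]
    exact Submodule.add_mem _ h1 h3
  · intro r z _ h1
    have e1 : (((r • z).1 * w.1, jm F (r • z).2 w.2) : A × B) =
        r • (z.1 * w.1, jm F z.2 w.2) := by
      ext
      · exact smul_mul_assoc _ _ _
      · exact jm_smul_left _ _ _
    rw [e1]
    exact Submodule.smul_mem _ _ h1

variable (b x y) in
/-- The second projection of the graph. -/
noncomputable def CC (n : ℕ) : Submodule F B := (Gr b x y n).map (LinearMap.snd F A B)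

theorem CC_anti (h2 : (2 : F) ≠ 0) {m n : ℕ} {h k : B} (hh : h ∈ CC b x y m)
    (hk : k ∈ CC b x y n) : h * k + k * h ∈ CC b x y (m + n) := by
  obtain ⟨z, hz, rfl⟩ := hh
  obtain ⟨w, hw, rfl⟩ := hk
  have h3 := Gr_mul hz hw
  rw [← two_jm h2]
  exact Submodule.smul_mem _ _ ⟨_, h3, rfl⟩

theorem CC_half (h2 : (2 : F) ≠ 0) {n : ℕ} {h : B} (hh : h + h ∈ CC b x y n) :
    h ∈ CC b x y n := by
  rw [← two_smul F] at hh
  have := Submodule.smul_mem _ (2 : F)⁻¹ hh
  rwa [smul_smul, inv_mul_cancel₀ h2, one_smul] at this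

theorem CC_sub {n : ℕ} {h k : B} (h1 : h + k ∈ CC b x y n) (h3 : k ∈ CC b x y n) :
    h ∈ CC b x y n := by
  have := Submodule.sub_mem _ h1 h3
  rwa [add_sub_cancel_right] at this

/-- Symmetric words are Jordan polynomials (two letters). -/
theorem dbl_mem (hb : ∀ v w, b (v ++ w) = b v * b w) (h2 : (2 : F) ≠ 0) (n : ℕ) :
    ∀ w : List Bool, w ≠ [] → w.length ≤ n → dbl b w ∈ CC b x y w.length := by
  induction n with
  | zero =>
    intro w hw h
    exact absurd (List.length_eq_zero_iff.1 (Nat.le_zero.1 h)) hw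
  | succ n ih =>
    have hlt : ∀ a : Bool, dbl b [a] ∈ CC b x y 1 := by
      intro a
      have h1 : b [a] ∈ CC b x y 1 := by
        refine ⟨((Mon.lt a).ev x y, (Mon.lt a).evB F b), Submodule.subset_span ⟨.lt a, rfl, rfl⟩, rfl⟩
      have h3 : dbl b [a] = b [a] + b [a] := rfl
      rw [h3]
      exact Submodule.add_mem _ h1 h1
    have hR : ∀ (a : Bool) (u : List Bool), u ≠ [] → u.length ≤ n →
        dbl b (a :: u) + dbl b (u ++ [a]) ∈ CC b x y (u.length + 1) := by
      intro a u hu hun
      have h1 := CC_anti h2 (hlt a) (ih u hu hun)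
      rw [dbl_mul b hb, add_comm 1] at h1
      have h3 : dbl b ([a] ++ u.reverse) = dbl b (u ++ [a]) := by
        rw [← dbl_rev b (u ++ [a])]
        simp
      have h4 : [a].reverse ++ u = a :: u := rfl
      have h5 : [a] ++ u = a :: u := rfl
      rw [h3, h4, h5] at h1
      apply CC_half h2
      have h6 : dbl b (a :: u) + dbl b (u ++ [a]) + (dbl b (a :: u) + dbl b (u ++ [a])) =
        dbl b (a :: u) + dbl b (u ++ [a]) + dbl b (a :: u) + dbl b (u ++ [a]) := by abel
      rw [h6]
      exact h1
    have hS : ∀ (a c : Bool) (u : List Bool), u ≠ [] → u.length + 1 ≤ n →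
        dbl b (a :: c :: u) + dbl b (c :: a :: u) ∈ CC b x y (u.length + 2) := by
      intro a c u hu hun
      have hac : dbl b [a, c] ∈ CC b x y 2 := ih [a, c] (by simp) (by
        have := List.length_pos_iff.2 hu
        show 2 ≤ n
        omega)
      have h1 := CC_anti h2 hac (ih u hu (by omega))
      rw [dbl_mul b hb, add_comm 2] at h1
      have h3 : dbl b ([a, c] ++ u.reverse) = dbl b (u ++ [c] ++ [a]) := by
        rw [← dbl_rev b (u ++ [c] ++ [a])]
        simp
      have h4 : [a, c].reverse ++ u = c :: a :: u := rfl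
      have h5 : [a, c] ++ u = a :: c :: u := rfl
      have h6 : u ++ [a, c] = u ++ [a] ++ [c] := by simp
      rw [h3, h4, h5, h6] at h1
      have r1 := hR c (u ++ [a]) (by simp) (by simp; omega)
      have r2 := hR a (c :: u) (by simp) (by simp; omega)
      have r3 := hR a (u ++ [c]) (by simp) (by simp; omega)
      have r4 := hR c (a :: u) (by simp) (by simp; omega)
      have l1 : (u ++ [a]).length + 1 = u.length + 2 := by simp
      have l2 : (c :: u).length + 1 = u.length + 2 := by simp
      have l3 : (u ++ [c]).length + 1 = u.length + 2 := by simp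
      have l4 : (a :: u).length + 1 = u.length + 2 := by simp
      rw [l1] at r1
      rw [l2] at r2
      rw [l3] at r3
      rw [l4] at r4
      apply CC_half h2
      have h7 : dbl b (a :: c :: u) + dbl b (c :: a :: u) +
          (dbl b (a :: c :: u) + dbl b (c :: a :: u)) =
          (dbl b (a :: c :: u) + dbl b (u ++ [c] ++ [a]) + dbl b (c :: a :: u) +
            dbl b (u ++ [a] ++ [c])) -
          (dbl b (c :: (u ++ [a])) + dbl b (u ++ [a] ++ [c])) +
          (dbl b (a :: (c :: u)) + dbl b ((c :: u) ++ [a])) -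
          (dbl b (a :: (u ++ [c])) + dbl b (u ++ [c] ++ [a])) +
          (dbl b (c :: (a :: u)) + dbl b ((a :: u) ++ [c])) := by
        have g1 : (c :: u) ++ [a] = c :: (u ++ [a]) := rfl
        have g2 : (a :: u) ++ [c] = a :: (u ++ [c]) := rfl
        rw [g1, g2]
        abel
      rw [h7]
      exact Submodule.add_mem _ (Submodule.sub_mem _ (Submodule.add_mem _
        (Submodule.sub_mem _ h1 r1) r2) r3) r4
    have haa : ∀ (a : Bool) (u : List Bool), u ≠ [] → u.length + 1 ≤ n →
        dbl b (a :: a :: u) ∈ CC b x y (u.length + 2) := by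
      intro a u hu hun
      exact CC_half h2 (hS a a u hu hun)
    have hcc : ∀ (a c : Bool) (u : List Bool), u.length + 2 ≤ n →
        dbl b (a :: c :: c :: u) ∈ CC b x y (u.length + 3) := by
      intro a c u hun
      have r := hR a (c :: c :: u) (by simp) (by simp; omega)
      have l1 : (c :: c :: u).length + 1 = u.length + 3 := by simp
      rw [l1] at r
      have s := haa c (u ++ [a]) (by simp) (by simp; omega)
      have l2 : (u ++ [a]).length + 2 = u.length + 3 := by simp
      rw [l2] at s
      exact CC_sub r s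
    intro w hw hwn
    match w with
    | [] => exact absurd rfl hw
    | [a] => exact hlt a
    | [a, c] =>
      have h1 := CC_anti h2 (hlt a) (hlt c)
      rw [dbl_mul b hb] at h1
      have h3 : dbl b ([c] ++ [a]) = dbl b [a, c] := by
        rw [← dbl_rev b [a, c]]
        rfl
      have h4 : dbl b ([a] ++ [c].reverse) = dbl b [a, c] := rfl
      have h5 : dbl b ([a].reverse ++ [c]) = dbl b [a, c] := rfl
      have h6 : dbl b ([a] ++ [c]) = dbl b [a, c] := rfl
      rw [h3, h4, h5, h6] at h1
      apply CC_half h2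
      apply CC_half h2
      rw [← add_assoc]
      exact h1
    | a :: c :: d :: u =>
      simp only [List.length_cons] at hwn
      have l0 : (a :: c :: d :: u).length = u.length + 3 := rfl
      rw [l0]
      by_cases h1 : a = c
      · subst h1
        have := haa a (d :: u) (by simp) (by simp; omega)
        exact this
      · by_cases h3 : c = d
        · subst h3
          exact hcc a c u (by omega)
        · have h4 : a = d := by
            revert h1 h3
            cases a <;> cases c <;> cases d <;> simp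
          subst h4
          have s := hS a c (a :: u) (by simp) (by simp; omega)
          exact CC_sub s (hcc c a u (by omega))

theorem exists_S (hb : ∀ v w, b (v ++ w) = b v * b w) (h2 : (2 : F) ≠ 0) (w : List Bool)
    (hw : w ≠ []) : ∃ f : A, (f, hat b w) ∈ Gr b x y w.length := by
  obtain ⟨z, hz, hz'⟩ := dbl_mem (x := x) (y := y) hb h2 w.length w hw le_rfl
  refine ⟨(2 : F)⁻¹ • z.1, ?_⟩
  have h1 := Submodule.smul_mem _ (2 : F)⁻¹ hz
  have h3 : (2 : F)⁻¹ • z = ((2 : F)⁻¹ • z.1, hat b w) := by
    ext
    · rfl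
    · show (2 : F)⁻¹ • z.2 = (2 : F)⁻¹ • dbl b w
      rw [← hz']
      rfl
  rw [← h3]
  exact h1

end Pool.Agent.H78.Mac
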